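import Pool.Agent.CSM.Defs

/-!
CERT: an integral certificate for the absence of common zeros over the residue field.
-/

set_option autoImplicit false

noncomputable section

namespace Pool.Agent.CSM

open MvPolynomial

universe u

theorem cert_proof : Stmt_Cert.{u} := by
  intro K _ O n J f φ h
  set R := IsLocalRing.residue O with hR
  set k := IsLocalRing.ResidueField O
  set I : Ideal (MvPolynomial (Fin (n + 1)) k) :=
    Ideal.span (Set.range fun j => MvPolynomial.map R (f j)) ⊔
      Ideal.span (Set.range fun i => MvPolynomial.map R (φ i)) with hI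
  have hrad : ∀ i, (X i : MvPolynomial (Fin (n + 1)) k) ∈ I.radical := by
    intro i
    rw [← MvPolynomial.vanishingIdeal_zeroLocus_eq_radical (K := AlgebraicClosure k) I,
      MvPolynomial.mem_vanishingIdeal_iff]
    intro z hz
    rw [MvPolynomial.mem_zeroLocus_iff] at hz
    have hz0 : z = 0 := by
      apply h z
      · intro j
        exact hz _ (Ideal.mem_sup_left (Ideal.subset_span ⟨j, rfl⟩))
      · intro i
        exact hz _ (Ideal.mem_sup_right (Ideal.subset_span ⟨i, rfl⟩))
    rw [hz0]
    simp
  choose s hs using hrad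
  refine ⟨∑ i, s i, fun i => ?_⟩
  have h1 : (X i : MvPolynomial (Fin (n + 1)) k) ^ (∑ i, s i) ∈ I := by
    have hle : s i ≤ ∑ i, s i := Finset.single_le_sum (fun _ _ => Nat.zero_le _) (Finset.mem_univ i)
    exact Ideal.pow_mem_of_pow_mem _ (hs i) hle
  have hsurj : Function.Surjective (MvPolynomial.map (σ := Fin (n + 1)) R) :=
    MvPolynomial.map_surjective _ IsLocalRing.residue_surjective
  have hImap : I = Ideal.map (MvPolynomial.map (σ := Fin (n + 1)) R)
      (Ideal.span (Set.range f) ⊔ Ideal.span (Set.range φ)) := by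
    rw [Ideal.map_sup, Ideal.map_span, Ideal.map_span, hI, ← Set.range_comp, ← Set.range_comp]
    rfl
  rw [hImap] at h1
  obtain ⟨G, hG, hGe⟩ := (Ideal.mem_map_iff_of_surjective _ hsurj).mp h1
  have h2 : X i ^ (∑ i, s i) - G ∈ Ideal.map C (IsLocalRing.maximalIdeal O) := by
    have h3 : X i ^ (∑ i, s i) - G ∈ RingHom.ker (MvPolynomial.map (σ := Fin (n + 1)) R) := by
      rw [RingHom.mem_ker, map_sub, hGe, map_pow, MvPolynomial.map_X, sub_self]
    rw [MvPolynomial.ker_map, hR, IsLocalRing.ker_residue] at h3
    exact h3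
  have h4 : X i ^ (∑ i, s i) = G + (X i ^ (∑ i, s i) - G) := by ring
  rw [h4]
  exact Ideal.add_mem _ (Ideal.mem_sup_left hG) (Ideal.mem_sup_right h2)

end Pool.Agent.CSM
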