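import Pool.Agent.CSM.Defs

set_option autoImplicit false
set_option linter.unusedSectionVars false
set_option linter.style.haveILetI false

noncomputable section

namespace Pool.Agent.CSM

open MvPolynomial Pool.Agent.LibDb3ab1 Pool.Agent.DC

universe u

theorem coef_proof : Stmt_Coef.{u} := by
  intro p _ A k _ _ _ _ _ _ red hsurj hunit
  haveI : CharP k p := by
    rw [CharP.charP_iff_prime_eq_zero (Fact.out : p.Prime)]
    have h1 : red (p : A) = 0 := by rw [CharP.cast_eq_zero A p, map_zero]
    rwa [map_natCast] at h1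
  letI : Algebra (ZMod p) k := ZMod.algebra k p
  letI : Algebra (ZMod p) A := ZMod.algebra A p
  obtain ⟨s, hs⟩ := exists_isTranscendenceBasis (ZMod p) k
  choose T hT using fun x : s => hsurj (x : k)
  let R := Algebra.adjoin (ZMod p) (Set.range ((↑) : s → k))
  let h : R →+* A := (aeval T : MvPolynomial s (ZMod p) →ₐ[ZMod p] A).toRingHom.comp
    (hs.1.aevalEquiv.symm : R →+* MvPolynomial s (ZMod p))
  have hred : ∀ r : R, red (h r) = (r : k) := by
    intro r
    obtain ⟨P, rfl⟩ := hs.1.aevalEquiv.surjective r
    have h1 : h (hs.1.aevalEquiv P) = aeval T P := by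
      change aeval T (hs.1.aevalEquiv.symm (hs.1.aevalEquiv P)) = _
      rw [AlgEquiv.symm_apply_apply]
    rw [h1]
    have h2 : ((hs.1.aevalEquiv P : R) : k) = aeval ((↑) : s → k) P :=
      hs.1.algebraMap_aevalEquiv P
    rw [h2]
    have h3 : red.comp (aeval T : MvPolynomial s (ZMod p) →ₐ[ZMod p] A).toRingHom =
        (aeval ((↑) : s → k) : MvPolynomial s (ZMod p) →ₐ[ZMod p] k).toRingHom := by
      apply MvPolynomial.ringHom_ext
      · intro r
        have h4 := Subsingleton.elim ((red.comp (algebraMap (ZMod p) A))) (algebraMap (ZMod p) k)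
        simpa using RingHom.congr_fun h4 r
      · intro i
        simp [hT]
    exact RingHom.congr_fun h3 P
  let Q := FractionRing A
  letI : Algebra R Q := ((algebraMap A Q).comp h).toAlgebra
  have hinj : Function.Injective (algebraMap R Q) := by
    change Function.Injective ((algebraMap A Q).comp h)
    rw [RingHom.coe_comp]
    refine (IsFractionRing.injective A Q).comp ?_
    intro a b hab
    apply Subtype.ext
    rw [← hred a, ← hred b, hab]
  haveI : FaithfulSMul R Q := (faithfulSMul_iff_algebraMap_injective R Q).mpr hinj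
  haveI : Algebra.IsAlgebraic R k := hs.isAlgebraic
  haveI : Module.IsTorsionFree R Q := Module.isTorsionFree_iff_algebraMap_injective.mpr hinj
  let σ₁ : k →ₐ[R] Q := IsAlgClosed.lift
  have hint : ∀ x : k, ∃ a : A, algebraMap A Q a = σ₁ x := by
    intro x
    obtain ⟨P, hP, hPx⟩ := Algebra.IsAlgebraic.isAlgebraic (R := R) x
    have h1 : Polynomial.aeval (σ₁ x) P = 0 := by
      rw [Polynomial.aeval_algHom_apply, hPx, map_zero]
    have hlead : IsUnit (h P.leadingCoeff) := by
      apply hunit
      rw [hred]
      intro h0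
      exact hP (Polynomial.leadingCoeff_eq_zero.mp (Subtype.ext h0))
    obtain ⟨u, hu⟩ := hlead.exists_left_inv
    have h2 : IsIntegral A (σ₁ x) := by
      refine ⟨Polynomial.C u * P.map h, ?_, ?_⟩
      · rw [Polynomial.Monic, Polynomial.leadingCoeff_mul, Polynomial.leadingCoeff_C,
          Polynomial.leadingCoeff_map_of_leadingCoeff_ne_zero h hlead.ne_zero, hu]
      · rw [Polynomial.eval₂_mul, Polynomial.eval₂_map]
        have h3 : Polynomial.eval₂ ((algebraMap A Q).comp h) (σ₁ x) P = 0 := h1
        rw [h3, mul_zero]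
    exact IsIntegrallyClosed.isIntegral_iff.mp h2
  choose τ hτ using hint
  have hinjA : Function.Injective (algebraMap A Q) := IsFractionRing.injective A Q
  let σ₂ : k →+* A :=
    { toFun := τ
      map_one' := hinjA (by rw [hτ, map_one, map_one])
      map_zero' := hinjA (by rw [hτ, map_zero, map_zero])
      map_mul' := fun x y => hinjA (by rw [map_mul, hτ, hτ, hτ, map_mul])
      map_add' := fun x y => hinjA (by rw [map_add, hτ, hτ, hτ, map_add]) }
  have hσ₂ : ∀ r : R, σ₂ (r : k) = h r := by
    intro r
    apply hinjA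
    change algebraMap A Q (τ r) = _
    rw [hτ]
    exact σ₁.commutes r
  let ρ : k →ₐ[R] k :=
    { red.comp σ₂ with
      commutes' := fun r => by
        change red (σ₂ (r : k)) = (r : k)
        rw [hσ₂, hred] }
  have hbij : Function.Bijective ρ := Algebra.IsAlgebraic.algHom_bijective ρ
  let E := RingEquiv.ofBijective (ρ : k →+* k) hbij
  refine ⟨σ₂.comp (E.symm : k →+* k), fun x => ?_⟩
  change ρ (E.symm x) = x
  exact E.apply_symm_apply x

end Pool.Agent.CSM
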