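import Pool.Agent.CSM.Defs
import Pool.Agent.LibDb3ab1.Tilt
import Pool.Agent.LibDb3ab1.Compact

/-!
# CONG: congruence modulo `ν` for tilted points
-/

set_option autoImplicit false
set_option linter.unusedSectionVars false

noncomputable section

namespace Pool.Agent.CSM

open MvPolynomial Pool.Agent.LibDb3ab1 Pool.Agent.DC

universe u

namespace CONG

theorem common {K : Type u} [Field K] (O : ValuationSubring K) (s : Finset O)
    (hs : ∀ a ∈ s, ¬IsUnit a) : ∃ ν : O, ¬IsUnit ν ∧ ∀ a ∈ s, ν ∣ a := by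
  classical
  induction s using Finset.induction_on with
  | empty => exact ⟨0, not_isUnit_zero, by simp⟩
  | insert a s _ ih =>
    obtain ⟨ν, hν, h⟩ := ih (fun b hb => hs b (Finset.mem_insert_of_mem hb))
    rcases dvd_total' O ν a with h1 | h1
    · refine ⟨ν, hν, fun b hb => ?_⟩
      rcases Finset.mem_insert.mp hb with rfl | hb
      · exact h1
      · exact h b hb
    · refine ⟨a, hs a (Finset.mem_insert_self _ _), fun b hb => ?_⟩
      rcases Finset.mem_insert.mp hb with rfl | hb
      · exact dvd_refl _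
      · exact h1.trans (h b hb)

/-- Reduction of the tilt modulo a divisor of `p`. -/
def rho {V : Type u} [CommRing V] (p : ℕ) [Fact p.Prime] [Fact ¬IsUnit (p : V)] (ν : V)
    (h : ν ∣ (p : V)) : PreTilt V p →+* V ⧸ Ideal.span {ν} :=
  (Ideal.Quotient.factor (S := Ideal.span {(p : V)}) (T := Ideal.span {ν})
    (Ideal.span_singleton_le_span_singleton.mpr h)).comp (PreTilt.coeff 0)

theorem rho_apply {V : Type u} [CommRing V] (p : ℕ) [Fact p.Prime] [Fact ¬IsUnit (p : V)]
    [IsAdicComplete (Ideal.span {(p : V)}) V] (ν : V)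
    (h : ν ∣ (p : V)) (x : PreTilt V p) :
    rho p ν h x = Ideal.Quotient.mk (Ideal.span {ν}) (PreTilt.untilt x) := by
  unfold rho
  rw [RingHom.comp_apply, ← PreTilt.mk_untilt_eq_coeff_zero]
  rfl

end CONG

open CONG in
theorem cong_proof : Stmt_Cong.{u} := by
  classical
  intro p _ K _ O _ _ _b σ hσ n J _ f
  let _ := Fintype.ofFinite J
  let s : Finset O := insert (p : O) ((Finset.univ : Finset J).biUnion fun j =>
    (f j).support.image fun m =>
      (f j).coeff m - PreTilt.untilt (σ (IsLocalRing.residue O ((f j).coeff m))))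
  have hs : ∀ a ∈ s, ¬IsUnit a := by
    intro a ha
    rcases Finset.mem_insert.mp ha with rfl | ha
    · exact Fact.out
    · obtain ⟨j, -, hj⟩ := Finset.mem_biUnion.mp ha
      obtain ⟨m, -, rfl⟩ := Finset.mem_image.mp hj
      intro hu
      have h1 := (IsLocalRing.residue_ne_zero_iff_isUnit _).mpr hu
      apply h1
      rw [map_sub, hσ, sub_self]
  obtain ⟨ν, hν, hdvd⟩ := common O s hs
  refine ⟨ν, hν, ?_⟩
  intro C _ ι V hV _ _ y j hy
  have hp : ν ∣ (p : O) := hdvd _ (Finset.mem_insert_self _ _)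
  have hpV : hV.incl ν ∣ (p : V) := by
    have := map_dvd hV.incl hp
    rwa [map_natCast] at this
  have hc : ∀ m ∈ (f j).support,
      Ideal.Quotient.mk (Ideal.span {hV.incl ν}) (hV.incl ((f j).coeff m)) =
        rho p (hV.incl ν) hpV (tmap hV.incl (σ (IsLocalRing.residue O ((f j).coeff m)))) := by
    intro m hm
    rw [rho_apply, untilt_tmap, Ideal.Quotient.eq, Ideal.mem_span_singleton, ← map_sub]
    apply map_dvd
    apply hdvd
    apply Finset.mem_insert_of_mem
    apply Finset.mem_biUnion.mpr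
    exact ⟨j, Finset.mem_univ _, Finset.mem_image.mpr ⟨m, hm, rfl⟩⟩
  rw [← Ideal.mem_span_singleton, ← Ideal.Quotient.eq_zero_iff_mem]
  have h0 := congrArg (rho p (hV.incl ν) hpV) hy
  rw [map_zero, eval₂_map, eval₂_eq', map_sum] at h0
  rw [eval₂_eq', map_sum, ← h0]
  apply Finset.sum_congr rfl
  intro m hm
  rw [map_mul, map_mul, hc m hm, map_prod, map_prod]
  congr 1
  apply Finset.prod_congr rfl
  intro i _
  rw [map_pow, map_pow, rho_apply]

end Pool.Agent.CSM
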