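import Pool.Agent.CSM.Defs

/-!
# CSM module CONTR: contraction under the iterates of a self-map
-/

set_option autoImplicit false

noncomputable section

namespace Pool.Agent.CSM

open MvPolynomial

universe u

namespace CONTR

lemma iter_homog {A : Type u} [CommRing A] {n : ℕ}
    (φ : Fin (n + 1) → MvPolynomial (Fin (n + 1)) A) (q : ℕ)
    (hφ : ∀ i, (φ i).IsHomogeneous q) : ∀ m i, (iter φ m i).IsHomogeneous (q ^ m) := by
  intro m
  induction m with
  | zero =>
    intro i
    rw [pow_zero]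
    exact isHomogeneous_X A i
  | succ m ih =>
    intro i
    have h := (hφ i).aeval (S := A) (iter φ m) ih
    rw [pow_succ]
    exact h

lemma eval_iter {A B : Type u} [CommRing A] [CommRing B] {n : ℕ}
    (φ : Fin (n + 1) → MvPolynomial (Fin (n + 1)) A) (ι : A →+* B) (w : Fin (n + 1) → B) (m : ℕ)
    (i : Fin (n + 1)) :
    eval₂ ι w (iter φ (m + 1) i) = eval₂ ι (fun l => eval₂ ι w (iter φ m l)) (φ i) := by
  have h := eval₂Hom_bind₁ ι w (iter φ m) (φ i)
  simpa [iter] using h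

lemma step {A B : Type u} [CommRing A] [CommRing B] {n : ℕ}
    (φ : Fin (n + 1) → MvPolynomial (Fin (n + 1)) A) (ι : A →+* B) (w : Fin (n + 1) → B)
    (J : Type) (f : J → MvPolynomial (Fin (n + 1)) A) (μ ν η : A) (hμ : η ∣ μ) (hν : η ∣ ν)
    (hf : ∀ j, bind₁ φ (f j) ∈ Ideal.span {C μ} * Ideal.span (Set.range f) ⊔
      Ideal.span (Set.range f) ^ 2) (m : ℕ)
    (hw : ∀ j, ι (η ^ m * ν) ∣ eval₂ ι w (f j)) (j : J) :
    ι (η ^ (m + 1) * ν) ∣ eval₂ ι (fun i => eval₂ ι w (φ i)) (f j) := by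
  set e : MvPolynomial (Fin (n + 1)) A →+* B := eval₂Hom ι w with he
  have h1 : eval₂ ι (fun i => eval₂ ι w (φ i)) (f j) = e (bind₁ φ (f j)) :=
    (eval₂Hom_bind₁ ι w φ (f j)).symm
  rw [h1, ← Ideal.mem_span_singleton]
  have h2 : Ideal.map e (Ideal.span (Set.range f)) ≤ Ideal.span {ι (η ^ m * ν)} := by
    rw [Ideal.map_span, Ideal.span_le]
    rintro _ ⟨_, ⟨j, rfl⟩, rfl⟩
    exact Ideal.mem_span_singleton.mpr (hw j)
  have h3 : Ideal.map e (Ideal.span {C μ}) ≤ Ideal.span {ι η} := by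
    rw [Ideal.map_span, Set.image_singleton, Ideal.span_singleton_le_span_singleton]
    have : e (C μ) = ι μ := by rw [he]; exact eval₂Hom_C ι w μ
    rw [this]
    exact map_dvd ι hμ
  have h4 : Ideal.span {ι (η ^ m * ν)} ≤ Ideal.span {ι η} := by
    rw [Ideal.span_singleton_le_span_singleton]
    exact map_dvd ι (hν.mul_left _)
  have h5 : Ideal.span {ι η} * Ideal.span {ι (η ^ m * ν)}
      ≤ Ideal.span {ι (η ^ (m + 1) * ν)} := by
    rw [Ideal.span_singleton_mul_span_singleton, ← map_mul]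
    apply le_of_eq
    congr 2
    ring_nf
  have h6 : Ideal.map e (Ideal.span {C μ} * Ideal.span (Set.range f) ⊔
      Ideal.span (Set.range f) ^ 2) ≤ Ideal.span {ι (η ^ (m + 1) * ν)} := by
    rw [Ideal.map_sup, Ideal.map_mul, Ideal.map_pow, sq]
    refine sup_le ((Ideal.mul_mono h3 h2).trans h5) ((Ideal.mul_mono (h2.trans h4) h2).trans h5)
  exact h6 (Ideal.mem_map_of_mem e (hf j))

end CONTR

open CONTR in
/-- module CONTR -/
theorem contr_proof : Stmt_Contr.{u} := by
  intro A _ n φ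
  refine ⟨fun q hφ => iter_homog φ q hφ, fun B _ ι w => ⟨fun m => funext (eval_iter φ ι w m), ?_⟩⟩
  intro J f μ ν η hμ hν hf hw m
  induction m with
  | zero =>
    intro j
    have h1 : (fun i => eval₂ ι w (iter φ 0 i)) = w := by
      funext i
      change eval₂ ι w (X i) = w i
      exact eval₂_X _ _ _
    rw [h1, pow_zero, one_mul]
    exact hw j
  | succ m ih =>
    intro j
    have h1 : (fun i => eval₂ ι w (iter φ (m + 1) i))
        = fun i => eval₂ ι (fun l => eval₂ ι w (iter φ m l)) (φ i) :=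
      funext (eval_iter φ ι w m)
    rw [h1]
    exact step φ ι (fun l => eval₂ ι w (iter φ m l)) J f μ ν η hμ hν hf m ih j

end Pool.Agent.CSM
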