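import Pool.Agent.CSM.Defs
import Pool.Agent.DC.DIMF

/-!
# Module DIMB: an upper bound for the dimension of a cone
-/

set_option autoImplicit false

noncomputable section

namespace Pool.Agent.CSM.DIMB

open MvPolynomial Pool.Agent.DC

universe u

variable {k : Type u} [Field k] {n : ℕ}

lemma hc_mul (L : MvPolynomial (Fin (n + 1)) k) (hL : L.IsHomogeneous 1)
    (g : MvPolynomial (Fin (n + 1)) k) (N : ℕ) :
    homogeneousComponent (N + 1) (g * L) = homogeneousComponent N g * L := by
  conv_lhs => rw [← sum_homogeneousComponent g]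
  rw [Finset.sum_mul, map_sum]
  have h1 : ∀ i ∈ Finset.range (g.totalDegree + 1),
      homogeneousComponent (N + 1) (homogeneousComponent i g * L) =
        if N = i then homogeneousComponent i g * L else 0 := by
    intro i _
    have h2 : (homogeneousComponent i g * L).IsHomogeneous (i + 1) :=
      (homogeneousComponent_isHomogeneous i g).mul hL
    rw [homogeneousComponent_of_mem h2]
    by_cases h : N = i
    · rw [if_pos h, if_pos (by omega)]
    · rw [if_neg h, if_neg (by omega)]
  rw [Finset.sum_congr rfl h1, Finset.sum_ite_eq]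
  split_ifs with h
  · rfl
  · rw [homogeneousComponent_eq_zero N g (by simpa using h), zero_mul]

/-- homogeneous decomposition of the powers of the variables -/
lemma dec (I : Ideal (MvPolynomial (Fin (n + 1)) k)) (hI : HI I) {d : ℕ}
    (L : Fin d → MvPolynomial (Fin (n + 1)) k) (hL : ∀ j, (L j).IsHomogeneous 1)
    (N : ℕ) (i : Fin (n + 1))
    (h : (X i : MvPolynomial (Fin (n + 1)) k) ^ (N + 1) ∈ I ⊔ Ideal.span (Set.range L)) :
    ∃ g : Fin d → MvPolynomial (Fin (n + 1)) k, (∀ j, (g j).IsHomogeneous N) ∧
      X i ^ (N + 1) - ∑ j, g j * L j ∈ I := by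
  obtain ⟨F, hF, G, hG, hFG⟩ := Submodule.mem_sup.mp h
  obtain ⟨c, hc⟩ := (Ideal.mem_span_range_iff_exists_fun).mp hG
  refine ⟨fun j => homogeneousComponent N (c j),
    fun j => homogeneousComponent_isHomogeneous N (c j), ?_⟩
  have h1 : homogeneousComponent (N + 1) (X i ^ (N + 1) : MvPolynomial (Fin (n + 1)) k) =
      X i ^ (N + 1) := by
    have : (X i ^ (N + 1) : MvPolynomial (Fin (n + 1)) k).IsHomogeneous (N + 1) := by
      simpa using (isHomogeneous_X k i).pow (N + 1)
    rw [homogeneousComponent_of_mem this, if_pos rfl]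
  have h2 : homogeneousComponent (N + 1) F = X i ^ (N + 1) -
      ∑ j, homogeneousComponent N (c j) * L j := by
    have h3 : F = X i ^ (N + 1) - ∑ j, c j * L j := by
      rw [hc, ← hFG, add_sub_cancel_right]
    rw [h3, map_sub, map_sum, h1]
    congr 1
    exact Finset.sum_congr rfl fun j _ => hc_mul (L j) (hL j) (c j) N
  rw [← h2]
  exact hI F hF _

end Pool.Agent.CSM.DIMB

namespace Pool.Agent.CSM

open MvPolynomial Pool.Agent.DC DIMB

universe u

theorem dimb_proof : Stmt_Dimb.{u} := by
  intro k _ _ n d I hI L hL hz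
  classical
  -- powers of the variables
  have hrad : ∀ i : Fin (n + 1), ∃ N : ℕ,
      (X i : MvPolynomial (Fin (n + 1)) k) ^ N ∈ I ⊔ Ideal.span (Set.range L) := by
    intro i
    have h1 : (X i : MvPolynomial (Fin (n + 1)) k) ∈
        (I ⊔ Ideal.span (Set.range L)).radical := by
      rw [← vanishingIdeal_zeroLocus_eq_radical (K := k)]
      intro z hz'
      have h2 : z = 0 := by
        apply hz z
        · intro f hf
          have := hz' f (Ideal.mem_sup_left hf)
          rwa [← coe_aeval_eq_eval]
        · intro j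
          have := hz' (L j) (Ideal.mem_sup_right (Ideal.subset_span ⟨j, rfl⟩))
          rwa [← coe_aeval_eq_eval]
      rw [h2, aeval_X]
      rfl
    exact h1
  choose N hN using hrad
  set M : ℕ := ∑ i, N i with hM
  have hNM : ∀ i : Fin (n + 1),
      (X i : MvPolynomial (Fin (n + 1)) k) ^ (M + 1) ∈ I ⊔ Ideal.span (Set.range L) := by
    intro i
    refine Ideal.pow_mem_of_pow_mem _ (hN i) ?_
    have : N i ≤ M := Finset.single_le_sum (f := N) (fun _ _ => Nat.zero_le _)
      (Finset.mem_univ i)
    omega
  choose g hg hgI using fun i => dec I hI L hL M i (hNM i)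
  -- the module structure
  let _ : Algebra (MvPolynomial (Fin d) k) (MvPolynomial (Fin (n + 1)) k ⧸ I) :=
    (NN.phi I L).toRingHom.toAlgebra
  have halg : ∀ x, algebraMap (MvPolynomial (Fin d) k) (MvPolynomial (Fin (n + 1)) k ⧸ I) x =
      NN.phi I L x := fun x => rfl
  set D : ℕ := (n + 1) * (M + 1) with hD
  -- the finite generating set
  let T : Set (Fin (n + 1) →₀ ℕ) := {m | ∑ i, m i < D}
  have hTfin : T.Finite := by
    have : T ⊆ {m | ∀ i, m i < D} := by
      intro m hm i
      exact lt_of_le_of_lt (Finset.single_le_sum (f := fun i => m i)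
        (fun _ _ => Nat.zero_le _) (Finset.mem_univ i)) hm
    refine Set.Finite.subset ?_ this
    have h3 : {m : Fin (n + 1) →₀ ℕ | ∀ i, m i < D} ⊆
        (fun m => (m : Fin (n + 1) → ℕ)) ⁻¹' (Set.pi Set.univ fun _ => Set.Iio D) := by
      intro m hm i _
      exact hm i
    refine Set.Finite.subset ?_ h3
    exact Set.Finite.preimage (fun a _ b _ h => DFunLike.coe_injective h)
      (Set.Finite.pi fun _ => Set.finite_Iio D)
  let W : Submodule (MvPolynomial (Fin d) k) (MvPolynomial (Fin (n + 1)) k ⧸ I) :=
    Submodule.span _ ((fun m => Ideal.Quotient.mk I (monomial m (1 : k))) '' T)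
  have hWfg : W.FG := ⟨(hTfin.image _).toFinset, by rw [Set.Finite.coe_toFinset]⟩
  have hWC : ∀ (a : k) (x : MvPolynomial (Fin (n + 1)) k), Ideal.Quotient.mk I x ∈ W →
      Ideal.Quotient.mk I (C a * x) ∈ W := by
    intro a x hx
    have h1 : Ideal.Quotient.mk I (C a * x) =
        (C a : MvPolynomial (Fin d) k) • Ideal.Quotient.mk I x := by
      rw [Algebra.smul_def, halg, NN.phi_apply, aeval_C, map_mul]
      rfl
    rw [h1]
    exact W.smul_mem _ hx
  have hWL : ∀ (j : Fin d) (x : MvPolynomial (Fin (n + 1)) k), Ideal.Quotient.mk I x ∈ W →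
      Ideal.Quotient.mk I (x * L j) ∈ W := by
    intro j x hx
    have h1 : Ideal.Quotient.mk I (x * L j) =
        (X j : MvPolynomial (Fin d) k) • Ideal.Quotient.mk I x := by
      rw [Algebra.smul_def, halg, NN.phi_apply, aeval_X, map_mul, mul_comm]
    rw [h1]
    exact W.smul_mem _ hx
  have hmain : ∀ e : ℕ, ∀ h : MvPolynomial (Fin (n + 1)) k, h.IsHomogeneous e →
      Ideal.Quotient.mk I h ∈ W := by
    intro e
    induction e using Nat.strong_induction_on with
    | _ e ih =>
      intro h hh
      rw [h.as_sum, map_sum]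
      refine Submodule.sum_mem _ fun m hm => ?_
      have hme : ∑ i, m i = e := by
        have := hh (mem_support_iff.1 hm)
        rw [Finsupp.weight_apply, Finsupp.sum_fintype _ _ (by simp)] at this
        simpa using this
      have h1 : monomial m (coeff m h) = C (coeff m h) * monomial m (1 : k) := by
        rw [C_mul_monomial, mul_one]
      rw [h1]
      apply hWC
      by_cases hlt : e < D
      · apply Submodule.subset_span
        exact ⟨m, by rw [← hme] at hlt; exact hlt, rfl⟩
      -- some exponent is large
      obtain ⟨i, hi⟩ : ∃ i, M + 1 ≤ m i := by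
        by_contra hcon
        push Not at hcon
        have h2 : ∑ i, m i ≤ ∑ _i : Fin (n + 1), M :=
          Finset.sum_le_sum fun i _ => by have := hcon i; omega
        rw [Finset.sum_const, Finset.card_univ, Fintype.card_fin, smul_eq_mul] at h2
        have h3 : D ≤ (n + 1) * M := by omega
        rw [hD] at h3
        have := Nat.le_of_mul_le_mul_left h3 (Nat.succ_pos n)
        omega
      set m' : Fin (n + 1) →₀ ℕ := m - Finsupp.single i (M + 1) with hm'
      have hmm : m = Finsupp.single i (M + 1) + m' := by
        rw [hm', add_tsub_cancel_of_le]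
        rwa [Finsupp.single_le_iff]
      have hmon : monomial m (1 : k) = X i ^ (M + 1) * monomial m' 1 := by
        rw [X_pow_eq_monomial, monomial_mul, mul_one, ← hmm]
      have hdeg : (monomial m' (1 : k)).IsHomogeneous (e - (M + 1)) := by
        apply isHomogeneous_monomial
        have h4 : ∑ i, m i = (M + 1) + ∑ i, m' i := by
          conv_lhs => rw [hmm]
          simp only [Finsupp.add_apply, Finset.sum_add_distrib]
          congr 1
          rw [Finset.sum_eq_single i]
          · simp
          · intro b _ hb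
            rw [Finsupp.single_apply, if_neg (Ne.symm hb)]
          · intro hcon
            exact absurd (Finset.mem_univ i) hcon
        rw [Finsupp.degree_eq_sum]
        omega
      have he : M + 1 ≤ e := by
        have h5 : m i ≤ ∑ i, m i := Finset.single_le_sum (f := fun i => m i)
          (fun _ _ => Nat.zero_le _) (Finset.mem_univ i)
        omega
      have hmk : Ideal.Quotient.mk I (monomial m (1 : k)) =
          ∑ j, Ideal.Quotient.mk I (g i j * monomial m' 1 * L j) := by
        rw [← map_sum, Ideal.Quotient.eq, hmon]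
        have h6 : X i ^ (M + 1) * monomial m' (1 : k) - ∑ j, g i j * monomial m' 1 * L j =
            (X i ^ (M + 1) - ∑ j, g i j * L j) * monomial m' 1 := by
          rw [sub_mul, Finset.sum_mul]
          congr 1
          exact Finset.sum_congr rfl fun j _ => by ring
        rw [h6]
        exact Ideal.mul_mem_right _ _ (hgI i)
      rw [hmk]
      refine Submodule.sum_mem _ fun j _ => hWL j _ ?_
      refine ih (M + (e - (M + 1))) (by omega) _ ?_
      exact (hg i j).mul hdeg
  have hWtop : W = ⊤ := by
    rw [eq_top_iff]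
    intro x _
    obtain ⟨y, rfl⟩ := Ideal.Quotient.mk_surjective x
    rw [← sum_homogeneousComponent y, map_sum]
    exact Submodule.sum_mem _ fun i _ => hmain i _ (homogeneousComponent_isHomogeneous i y)
  have : Module.Finite (MvPolynomial (Fin d) k) (MvPolynomial (Fin (n + 1)) k ⧸ I) :=
    ⟨hWtop ▸ hWfg⟩
  have hint : (algebraMap (MvPolynomial (Fin d) k)
      (MvPolynomial (Fin (n + 1)) k ⧸ I)).IsIntegral := fun x =>
    Algebra.IsIntegral.isIntegral (R := MvPolynomial (Fin d) k) x
  -- dimension
  set f : MvPolynomial (Fin d) k →+* MvPolynomial (Fin (n + 1)) k ⧸ I :=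
    algebraMap (MvPolynomial (Fin d) k) (MvPolynomial (Fin (n + 1)) k ⧸ I) with hf
  have hcomp : (RingHom.kerLift f).comp (Ideal.Quotient.mk (RingHom.ker f)) = f := by
    apply RingHom.ext
    intro x
    rfl
  have hint2 : (RingHom.kerLift f).IsIntegral := by
    apply RingHom.IsIntegral.tower_top (Ideal.Quotient.mk (RingHom.ker f))
    rw [hcomp]
    exact hint
  have h1 := DIMFX.dim_eq (RingHom.kerLift f) hint2 (RingHom.kerLift_injective f)
  rw [← h1]
  refine (ringKrullDim_quotient_le (RingHom.ker f)).trans ?_
  rw [MvPolynomial.ringKrullDim_of_isNoetherianRing, ringKrullDim_eq_zero_of_field, zero_add,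
    Nat.card_eq_fintype_card, Fintype.card_fin]

end Pool.Agent.CSM
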