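import Pool.Agent.DC.StmtsB
import Pool.Agent.DC.StmtsF
import Pool.Agent.DC.NN

/-!
# Contracting self-maps and tilted approximation: definitions and statements of the modules
-/

set_option autoImplicit false
set_option linter.unusedSectionVars false

noncomputable section

namespace Pool.Agent.CSM

open MvPolynomial Pool.Agent.LibDb3ab1 Pool.Agent.DC

universe u

/-- Homogeneous ideals. -/
def HI {k : Type u} [Field k] {n : ℕ} (I : Ideal (MvPolynomial (Fin (n + 1)) k)) : Prop :=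
  ∀ F ∈ I, ∀ m, homogeneousComponent m F ∈ I

/-- The tilted points of the closed subscheme defined by `𝔓` over the tilt. -/
def TPt {K : Type u} [Field K] {O : ValuationSubring K} {p : ℕ} [Fact p.Prime]
    [Fact ¬IsUnit (p : O)] {n : ℕ}
    (𝔓 : Ideal (MvPolynomial (Fin (n + 1)) (FractionRing (PreTilt O p))))
    {C : Type u} [Field C] {ι : K →+* C} {V : ValuationSubring C} (hV : ValuedExt O ι V)
    [Fact ¬IsUnit (p : V)] (y : Fin (n + 1) → PreTilt V p) : Prop :=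
  ∀ F : MvPolynomial (Fin (n + 1)) (PreTilt O p),
    MvPolynomial.map (algebraMap (PreTilt O p) (FractionRing (PreTilt O p))) F ∈ 𝔓 →
    eval₂ (tmap hV.incl) y F = 0

/-- The iterates of the self-map `φ`. -/
def iter {A : Type u} [CommRing A] {n : ℕ} (φ : Fin (n + 1) → MvPolynomial (Fin (n + 1)) A) :
    ℕ → Fin (n + 1) → MvPolynomial (Fin (n + 1)) A
  | 0 => X
  | m + 1 => fun i => bind₁ (iter φ m) (φ i)

/-- RAC: the residue fields of the valuation rings of algebraically closed fields are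
algebraically closed. -/
def Stmt_Rac : Prop := ∀ (K : Type u) [Field K] [IsAlgClosed K] (O : ValuationSubring K),
  IsAlgClosed (IsLocalRing.ResidueField O)

/-- NNG: Noether normalisation by linear forms for homogeneous ideals. -/
def Stmt_Nng : Prop := ∀ (k : Type u) [Field k] [Infinite k] (n : ℕ)
  (I : Ideal (MvPolynomial (Fin (n + 1)) k)), I ≠ ⊤ → HI I →
  ∃ (r : ℕ) (M : Fin r → MvPolynomial (Fin (n + 1)) k), (∀ j, (M j).IsHomogeneous 1) ∧
    (NN.phi I M).toRingHom.IsIntegral ∧ Function.Injective (NN.phi I M) ∧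
    ringKrullDim (MvPolynomial (Fin (n + 1)) k ⧸ I) = (r : WithBot ℕ∞)

/-- SECT: a cone of dimension at most `d` meets a suitable linear subspace of codimension `d` only
in the origin (uses NNG). -/
def Stmt_Sect : Prop := ∀ (k : Type u) [Field k] [Infinite k] (n d : ℕ)
  (I : Ideal (MvPolynomial (Fin (n + 1)) k)), HI I →
  ringKrullDim (MvPolynomial (Fin (n + 1)) k ⧸ I) ≤ (d : WithBot ℕ∞) →
  ∃ L : Fin d → MvPolynomial (Fin (n + 1)) k, (∀ j, (L j).IsHomogeneous 1) ∧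
    ∀ z : Fin (n + 1) → k, (∀ f ∈ I, eval z f = 0) → (∀ j, eval z (L j) = 0) → z = 0

/-- DIMB: a cone which meets a linear subspace of codimension `d` only in the origin has dimension
at most `d`. -/
def Stmt_Dimb : Prop := ∀ (k : Type u) [Field k] [IsAlgClosed k] (n d : ℕ)
  (I : Ideal (MvPolynomial (Fin (n + 1)) k)), HI I →
  ∀ L : Fin d → MvPolynomial (Fin (n + 1)) k, (∀ j, (L j).IsHomogeneous 1) →
    (∀ z : Fin (n + 1) → k, (∀ f ∈ I, eval z f = 0) → (∀ j, eval z (L j) = 0) → z = 0) →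
    ringKrullDim (MvPolynomial (Fin (n + 1)) k ⧸ I) ≤ (d : WithBot ℕ∞)

/-- RESD: the dimension does not drop under reduction (uses RAC, SECT, DIMB). -/
def Stmt_Resd : Prop := ∀ (K : Type u) [Field K] [IsAlgClosed K] (O : ValuationSubring K)
  (n d : ℕ) (J : Type) (f : J → MvPolynomial (Fin (n + 1)) O) (df : J → ℕ),
  (∀ j, (f j).IsHomogeneous (df j)) →
  ((d + 1 : ℕ) : WithBot ℕ∞) ≤ ringKrullDim (MvPolynomial (Fin (n + 1)) K ⧸
    Ideal.span (Set.range fun j => MvPolynomial.map O.subtype (f j))) →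
  ((d + 1 : ℕ) : WithBot ℕ∞) ≤ ringKrullDim (MvPolynomial (Fin (n + 1))
    (IsLocalRing.ResidueField O) ⧸
    Ideal.span (Set.range fun j => MvPolynomial.map (IsLocalRing.residue O) (f j)))

/-- PRD: homogeneous prime ideals of a given smaller dimension above a homogeneous ideal
(uses NNG). -/
def Stmt_Prd : Prop := ∀ (k : Type u) [Field k] [Infinite k] (n d : ℕ)
  (I : Ideal (MvPolynomial (Fin (n + 1)) k)), HI I →
  ((d + 1 : ℕ) : WithBot ℕ∞) ≤ ringKrullDim (MvPolynomial (Fin (n + 1)) k ⧸ I) →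
  ∃ 𝔓 : Ideal (MvPolynomial (Fin (n + 1)) k), I ≤ 𝔓 ∧ 𝔓.IsPrime ∧ HI 𝔓 ∧
    ringKrullDim (MvPolynomial (Fin (n + 1)) k ⧸ 𝔓) = (d + 1 : ℕ)

/-- COEF: coefficient fields of valuation rings of algebraically closed fields of
characteristic `p`. -/
def Stmt_Coef : Prop := ∀ (p : ℕ) [Fact p.Prime] (A k : Type u) [CommRing A] [IsDomain A]
  [ValuationRing A] [CharP A p] [Field k] [IsAlgClosed (FractionRing A)] (red : A →+* k),
  Function.Surjective red → (∀ a, red a ≠ 0 → IsUnit a) → ∃ σ : k →+* A, ∀ x, red (σ x) = x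

/-- REST: the residue field of the tilt. -/
def Stmt_Rest : Prop := ∀ (p : ℕ) [Fact p.Prime] (K : Type u) [Field K] (O : ValuationSubring K)
  [Fact ¬IsUnit (p : O)] [IsAdicComplete (Ideal.span {(p : O)}) O] (_b : TB O p),
  ∃ red : PreTilt O p →+* IsLocalRing.ResidueField O, Function.Surjective red ∧
    (∀ y, red y = IsLocalRing.residue O (PreTilt.untilt y)) ∧ ∀ y, red y ≠ 0 → IsUnit y

/-- CONG: points of the variety over the coefficient field `σ` satisfy the given equations modulo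
a fixed non-unit `ν`. -/
def Stmt_Cong : Prop := ∀ (p : ℕ) [Fact p.Prime] (K : Type u) [Field K] (O : ValuationSubring K)
  [Fact ¬IsUnit (p : O)] [IsAdicComplete (Ideal.span {(p : O)}) O] (_b : TB O p)
  (σ : IsLocalRing.ResidueField O →+* PreTilt O p),
  (∀ x, IsLocalRing.residue O (PreTilt.untilt (σ x)) = x) →
  ∀ (n : ℕ) (J : Type) [Finite J] (f : J → MvPolynomial (Fin (n + 1)) O),
  ∃ ν : O, ¬IsUnit ν ∧ ∀ (C : Type u) [Field C] (ι : K →+* C) (V : ValuationSubring C)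
    (hV : ValuedExt O ι V) [Fact ¬IsUnit (p : V)] [IsAdicComplete (Ideal.span {(p : V)}) V]
    (y : Fin (n + 1) → PreTilt V p) (j : J),
    eval₂ ((tmap hV.incl).comp σ) y (MvPolynomial.map (IsLocalRing.residue O) (f j)) = 0 →
    hV.incl ν ∣ eval₂ hV.incl (fun i => PreTilt.untilt (y i)) (f j)

/-- START: approximation of fixed precision `ν` (uses RAC, COEF, REST, CONG, RESD, PRD and
`dimf_proof`). -/
def Stmt_Start : Prop := ∀ (p : ℕ) [Fact p.Prime] (K : Type u) [Field K] [IsAlgClosed K]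
  (O : ValuationSubring K) [Fact ¬IsUnit (p : O)] [IsAdicComplete (Ideal.span {(p : O)}) O]
  (_b : TB O p) (n d : ℕ) (J : Type) [Finite J] (f : J → MvPolynomial (Fin (n + 1)) O)
  (df : J → ℕ), (∀ j, (f j).IsHomogeneous (df j)) →
  ringKrullDim (MvPolynomial (Fin (n + 1)) K ⧸
    Ideal.span (Set.range fun j => MvPolynomial.map O.subtype (f j))) = (d + 1 : ℕ) →
  ∃ ν : O, ¬IsUnit ν ∧ ∃ 𝔓 : Ideal (MvPolynomial (Fin (n + 1)) (FractionRing (PreTilt O p))),
    𝔓.IsPrime ∧ HI 𝔓 ∧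
    ringKrullDim (MvPolynomial (Fin (n + 1)) (FractionRing (PreTilt O p)) ⧸ 𝔓) = (d + 1 : ℕ) ∧
    ∀ (C : Type u) [Field C] (ι : K →+* C) (V : ValuationSubring C)
      (hV : ValuedExt O ι V) [Fact ¬IsUnit (p : V)] [IsAdicComplete (Ideal.span {(p : V)}) V]
      (y : Fin (n + 1) → PreTilt V p), TPt 𝔓 hV y →
      ∀ j, hV.incl ν ∣ eval₂ hV.incl (fun i => PreTilt.untilt (y i)) (f j)

/-- CONTR: contraction under the iterates, and homogeneity of the iterates. -/
def Stmt_Contr : Prop := ∀ (A : Type u) [CommRing A] (n : ℕ)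
  (φ : Fin (n + 1) → MvPolynomial (Fin (n + 1)) A),
  (∀ q : ℕ, (∀ i, (φ i).IsHomogeneous q) → ∀ m i, (iter φ m i).IsHomogeneous (q ^ m)) ∧
  ∀ (B : Type u) [CommRing B] (ι : A →+* B) (w : Fin (n + 1) → B),
    (∀ m, (fun i => eval₂ ι w (iter φ (m + 1) i)) =
      fun i => eval₂ ι (fun l => eval₂ ι w (iter φ m l)) (φ i)) ∧
    ∀ (J : Type) (f : J → MvPolynomial (Fin (n + 1)) A) (μ ν η : A), η ∣ μ → η ∣ ν →
    (∀ j, bind₁ φ (f j) ∈ Ideal.span {C μ} * Ideal.span (Set.range f) ⊔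
      Ideal.span (Set.range f) ^ 2) →
    (∀ j, ι ν ∣ eval₂ ι w (f j)) → ∀ (m : ℕ) (j : J),
    ι (η ^ m * ν) ∣ eval₂ ι (fun i => eval₂ ι w (iter φ m i)) (f j)

/-- CERT: an integral certificate for the absence of common zeros over the residue field. -/
def Stmt_Cert : Prop := ∀ (K : Type u) [Field K] (O : ValuationSubring K) (n : ℕ) (J : Type)
  (f : J → MvPolynomial (Fin (n + 1)) O) (φ : Fin (n + 1) → MvPolynomial (Fin (n + 1)) O),
  (∀ z : Fin (n + 1) → AlgebraicClosure (IsLocalRing.ResidueField O),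
    (∀ j, aeval z (MvPolynomial.map (IsLocalRing.residue O) (f j)) = 0) →
    (∀ i, aeval z (MvPolynomial.map (IsLocalRing.residue O) (φ i)) = 0) → z = 0) →
  ∃ s : ℕ, ∀ i, X i ^ s ∈ Ideal.span (Set.range f) ⊔ Ideal.span (Set.range φ) ⊔
    Ideal.map C (IsLocalRing.maximalIdeal O)

/-- NOZ: the self-map preserves normalised points (with the certificate of CERT). -/
def Stmt_Noz : Prop := ∀ (A B : Type u) [CommRing A] [IsLocalRing A] [CommRing B] [IsLocalRing B]
  (ι : A →+* B), (∀ a, ¬IsUnit a → ¬IsUnit (ι a)) → ∀ (n : ℕ) (J : Type)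
  (f : J → MvPolynomial (Fin (n + 1)) A) (φ : Fin (n + 1) → MvPolynomial (Fin (n + 1)) A) (s : ℕ),
  (∀ i, X i ^ s ∈ Ideal.span (Set.range f) ⊔ Ideal.span (Set.range φ) ⊔
    Ideal.map C (IsLocalRing.maximalIdeal A)) →
  ∀ w : Fin (n + 1) → B, (∃ l, IsUnit (w l)) → (∀ j, ¬IsUnit (eval₂ ι w (f j))) →
  ∃ l, IsUnit (eval₂ ι w (φ l))

/-- IMAGE: images over the tilt. -/
def Stmt_Image : Prop := ∀ (p : ℕ) [Fact p.Prime] (K : Type u) [Field K]
  (O : ValuationSubring K) [Fact ¬IsUnit (p : O)] [IsAdicComplete (Ideal.span {(p : O)}) O]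
  (_b : TB O p) (r n d : ℕ)
  (𝔓 : Ideal (MvPolynomial (Fin (r + 1)) (FractionRing (PreTilt O p)))), 𝔓.IsPrime → HI 𝔓 →
  ringKrullDim (MvPolynomial (Fin (r + 1)) (FractionRing (PreTilt O p)) ⧸ 𝔓) = (d + 1 : ℕ) →
  d ≤ n → ∀ (e : ℕ), 0 < e → ∀ (Φ : Fin (n + 1) → MvPolynomial (Fin (r + 1)) O),
  (∀ l, (Φ l).IsHomogeneous e) →
  (∀ (C : Type u) [Field C] [IsAlgClosed C] (ι : K →+* C) (V : ValuationSubring C)
    (hV : ValuedExt O ι V) [Fact ¬IsUnit (p : V)] [IsAdicComplete (Ideal.span {(p : V)}) V]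
    (z : Fin (r + 1) → PreTilt V p), (∃ v, z v = 1) → TPt 𝔓 hV z →
    ∃ l, IsUnit (eval₂ hV.incl (fun i => PreTilt.untilt (z i)) (Φ l))) → ∀ M : ℕ,
  ∃ 𝔔 : Ideal (MvPolynomial (Fin (n + 1)) (FractionRing (PreTilt O p))), 𝔔.IsPrime ∧ HI 𝔔 ∧
    ringKrullDim (MvPolynomial (Fin (n + 1)) (FractionRing (PreTilt O p)) ⧸ 𝔔) = (d + 1 : ℕ) ∧
    ∀ (C : Type u) [Field C] [IsAlgClosed C] (ι : K →+* C) (V : ValuationSubring C)
      (hV : ValuedExt O ι V) [Fact ¬IsUnit (p : V)] [IsAdicComplete (Ideal.span {(p : V)}) V]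
      (y : Fin (n + 1) → PreTilt V p), y ≠ 0 → TPt 𝔔 hV y →
      ∃ (z : Fin (r + 1) → PreTilt V p) (v : Fin (r + 1)) (x' : Fin (n + 1) → V) (c : C), c ≠ 0 ∧
        z v = 1 ∧ TPt 𝔓 hV z ∧
        (∀ l, (p : V) ^ M ∣ x' l - eval₂ hV.incl (fun i => PreTilt.untilt (z i)) (Φ l)) ∧
        ∀ l, (x' l : C) = c * ((PreTilt.untilt (y l) : V) : C)

/-- FROB: a self-map whose reduction factors through the Frobenius map is contracting, after
modification by the equations. -/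
def Stmt_Frob : Prop := ∀ (p : ℕ) [Fact p.Prime] (K : Type u) [Field K] (O : ValuationSubring K)
  [CharP (IsLocalRing.ResidueField O) p] [PerfectRing (IsLocalRing.ResidueField O) p]
  (n q : ℕ) (J : Type) [Finite J] (f : J → MvPolynomial (Fin (n + 1)) O) (df : J → ℕ),
  (∀ j, (f j).IsHomogeneous (df j)) →
  ∀ φ : Fin (n + 1) → MvPolynomial (Fin (n + 1)) O, (∀ i, (φ i).IsHomogeneous q) →
  (∀ (a : O) (F : MvPolynomial (Fin (n + 1)) O), a ≠ 0 →
    C a * F ∈ Ideal.span (Set.range f) → F ∈ Ideal.span (Set.range f)) →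
  (Ideal.span (Set.range fun j =>
    MvPolynomial.map (IsLocalRing.residue O) (f j))).IsRadical →
  (∀ j, bind₁ φ (f j) ∈ Ideal.span (Set.range f)) →
  (∀ i, ∃ ψ : MvPolynomial (Fin (n + 1)) (IsLocalRing.ResidueField O),
    MvPolynomial.map (IsLocalRing.residue O) (φ i) - expand p ψ ∈
      Ideal.span (Set.range fun j => MvPolynomial.map (IsLocalRing.residue O) (f j))) →
  ∃ (φ' : Fin (n + 1) → MvPolynomial (Fin (n + 1)) O) (μ : O), ¬IsUnit μ ∧
    (∀ i, (φ' i).IsHomogeneous q) ∧ (∀ i, φ' i - φ i ∈ Ideal.span (Set.range f)) ∧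
    ∀ j, bind₁ φ' (f j) ∈ Ideal.span {C μ} * Ideal.span (Set.range f) ⊔
      Ideal.span (Set.range f) ^ 2

end Pool.Agent.CSM
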