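import Pool.Agent.CSM.Defs

/-!
# FROB: a self-map whose reduction factors through Frobenius is contracting after modification
-/

set_option autoImplicit false
set_option linter.unusedSectionVars false

noncomputable section

universe u

namespace Pool.Agent.CSM.FROB

open MvPolynomial Pool.Agent.LibDb3ab1 Pool.Agent.DC

theorem map_hom {A B : Type*} [CommRing A] [CommRing B] {σ : Type*} (g : A →+* B) (m : ℕ)
    (F : MvPolynomial σ A) :
    MvPolynomial.map g (homogeneousComponent m F) = homogeneousComponent m (MvPolynomial.map g F) := by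
  ext d
  rw [coeff_map, coeff_homogeneousComponent, coeff_homogeneousComponent, coeff_map]
  split_ifs <;> simp

theorem hi_span {A : Type*} [CommRing A] {σ : Type*} {J : Type*} (f : J → MvPolynomial σ A)
    (df : J → ℕ) (hf : ∀ j, (f j).IsHomogeneous (df j)) (F : MvPolynomial σ A)
    (hF : F ∈ Ideal.span (Set.range f)) (m : ℕ) :
    homogeneousComponent m F ∈ Ideal.span (Set.range f) := by
  letI := MvPolynomial.gradedAlgebra (σ := σ) (R := A)
  refine homogeneousComponent_mem_of_mem ?_ hF m
  refine Ideal.homogeneous_span _ _ ?_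
  rintro _ ⟨j, rfl⟩
  exact ⟨df j, hf j⟩

theorem hom_expand {A : Type*} [CommRing A] {σ : Type*} (p q : ℕ) (hp : p ≠ 0)
    (ψ : MvPolynomial σ A) :
    ∃ ψ' : MvPolynomial σ A, homogeneousComponent q (expand p ψ) = expand p ψ' := by
  by_cases h : p ∣ q
  · obtain ⟨m, rfl⟩ := h
    refine ⟨homogeneousComponent m ψ, ?_⟩
    classical
    ext d
    rw [coeff_homogeneousComponent]
    by_cases hd : ∀ i, p ∣ d i
    · choose e he using hd
      have hd' : d = p • (Finsupp.onFinset d.support e (fun i hi => by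
          rw [Finsupp.mem_support_iff, he i]
          exact mul_ne_zero hp hi)) := by
        ext i
        simp [he i]
      set e' := (Finsupp.onFinset d.support e (fun i hi => by
          rw [Finsupp.mem_support_iff, he i]
          exact mul_ne_zero hp hi)) with he'
      rw [hd', coeff_expand_smul p hp, coeff_expand_smul p hp, coeff_homogeneousComponent]
      have : (p • e').degree = p * e'.degree := by
        rw [map_nsmul, smul_eq_mul]
      rw [this]
      simp [hp]
    · push Not at hd
      obtain ⟨i, hi⟩ := hd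
      rw [coeff_expand_of_not_dvd _ hi, coeff_expand_of_not_dvd _ hi]
      simp
  · refine ⟨0, ?_⟩
    rw [map_zero]
    classical
    ext d
    rw [coeff_homogeneousComponent]
    split_ifs with hd
    · have : ∃ i, ¬ p ∣ d i := by
        by_contra hc
        push Not at hc
        apply h
        rw [← hd, Finsupp.degree_apply]
        exact Finset.dvd_sum fun i _ => hc i
      obtain ⟨i, hi⟩ := this
      rw [coeff_expand_of_not_dvd _ hi]
      simp
    · simp

theorem frob_expand {k : Type*} [Field k] {σ : Type*} (p : ℕ) [Fact p.Prime] [CharP k p]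
    (G : MvPolynomial σ k) : MvPolynomial.map (frobenius k p) (expand p G) = G ^ p := by
  have h : (MvPolynomial.map (frobenius k p)).comp
      ((expand p : MvPolynomial σ k →ₐ[k] MvPolynomial σ k) : MvPolynomial σ k →+* MvPolynomial σ k)
      = frobenius (MvPolynomial σ k) p := by
    refine MvPolynomial.ringHom_ext ?_ ?_
    · intro r
      simp [frobenius_def]
    · intro i
      simp [frobenius_def]
  have := DFunLike.congr_fun h G
  simpa [frobenius_def] using this

theorem exists_root {k : Type*} [Field k] {σ : Type*} (p : ℕ) [Fact p.Prime] [CharP k p]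
    [PerfectRing k p] (H : MvPolynomial σ k) : ∃ G, G ^ p = expand p H := by
  refine ⟨MvPolynomial.map ((frobeniusEquiv k p).symm : k →+* k) H, ?_⟩
  rw [← frob_expand, ← map_expand, MvPolynomial.map_map]
  have : (frobenius k p).comp ((frobeniusEquiv k p).symm : k →+* k) = RingHom.id k := by
    ext x
    simp
  rw [this, MvPolynomial.map_id]

theorem exists_dvd {O : Type*} [CommRing O] (htot : ∀ a b : O, a ∣ b ∨ b ∣ a) {ι : Type*}
    (c : ι → O) (s : Finset ι) (hs : s.Nonempty) : ∃ i ∈ s, ∀ j ∈ s, c i ∣ c j := by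
  classical
  induction hs using Finset.Nonempty.cons_induction with
  | singleton a => exact ⟨a, by simp, by simp⟩
  | cons a s ha hs ih =>
    obtain ⟨i, hi, h⟩ := ih
    rcases htot (c i) (c a) with h1 | h1
    · refine ⟨i, by simp [hi], ?_⟩
      intro j hj
      rw [Finset.mem_cons] at hj
      rcases hj with rfl | hj
      · exact h1
      · exact h j hj
    · refine ⟨a, by simp, ?_⟩
      intro j hj
      rw [Finset.mem_cons] at hj
      rcases hj with rfl | hj
      · exact dvd_rfl
      · exact h1.trans (h j hj)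

theorem factor {O : Type*} [CommRing O] (htot : ∀ a b : O, a ∣ b ∨ b ∣ a) {σ : Type*}
    (F : MvPolynomial σ O) (hF : ∀ d, ¬IsUnit (coeff d F)) (hF0 : F ≠ 0) :
    ∃ (a : O) (G : MvPolynomial σ O), ¬IsUnit a ∧ a ≠ 0 ∧ F = C a * G := by
  classical
  have hs : F.support.Nonempty := by
    rw [Finset.nonempty_iff_ne_empty, Ne, support_eq_empty]
    exact hF0
  obtain ⟨i, hi, h⟩ := exists_dvd htot (fun d => coeff d F) F.support hs
  refine ⟨coeff i F, ?_⟩
  have : C (coeff i F) ∣ F := by
    rw [C_dvd_iff_dvd_coeff]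
    intro d
    by_cases hd : d ∈ F.support
    · exact h d hd
    · rw [notMem_support_iff.1 hd]
      exact dvd_zero _
  obtain ⟨G, hG⟩ := this
  exact ⟨G, hF i, mem_support_iff.1 hi, hG⟩

theorem bind_congr {A : Type*} [CommRing A] {σ : Type*} (I : Ideal (MvPolynomial σ A))
    (φ φ' : σ → MvPolynomial σ A) (h : ∀ i, φ' i - φ i ∈ I) (F : MvPolynomial σ A) :
    bind₁ φ' F - bind₁ φ F ∈ I := by
  rw [← Ideal.Quotient.mk_eq_mk_iff_sub_mem]
  have : ((Ideal.Quotient.mk I).comp (bind₁ φ' : MvPolynomial σ A →ₐ[A] _).toRingHom) =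
      (Ideal.Quotient.mk I).comp (bind₁ φ : MvPolynomial σ A →ₐ[A] _).toRingHom := by
    refine MvPolynomial.ringHom_ext ?_ ?_
    · intro r
      simp
    · intro i
      have := (Ideal.Quotient.mk_eq_mk_iff_sub_mem (φ' i) (φ i)).2 (h i)
      simpa using this
  exact DFunLike.congr_fun this F

end Pool.Agent.CSM.FROB

namespace Pool.Agent.CSM

open MvPolynomial Pool.Agent.LibDb3ab1 Pool.Agent.DC FROB

theorem frob_proof : Stmt_Frob.{u} := by
  intro p _ K _ O _ _ n q J _ f df hf φ hφ htf hrad hbind hψ
  have hp0 : p ≠ 0 := (Fact.out : p.Prime).ne_zero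
  have hp2 : 2 ≤ p := (Fact.out : p.Prime).two_le
  have htot : ∀ a b : O, a ∣ b ∨ b ∣ a := fun a b => ValuationRing.dvd_total a b
  set k := IsLocalRing.ResidueField O
  set res := IsLocalRing.residue O
  set Res := MvPolynomial.map (σ := Fin (n + 1)) res with hRes
  have hsurj : Function.Surjective Res := MvPolynomial.map_surjective _ IsLocalRing.residue_surjective
  set I := Ideal.span (Set.range f) with hI
  have hIbar : I.map Res = Ideal.span (Set.range fun j => Res (f j)) := by
    rw [hI, Ideal.map_span, ← Set.range_comp]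
    rfl
  rw [← hIbar] at hrad
  have hψ' : ∀ i, ∃ ψ : MvPolynomial (Fin (n + 1)) k, Res (φ i) - expand p ψ ∈ I.map Res := by
    intro i
    rw [hIbar]
    exact hψ i
  have hhom : ∀ F ∈ I.map Res, ∀ m, homogeneousComponent m F ∈ I.map Res := by
    intro F hF m
    rw [hIbar] at hF ⊢
    refine hi_span _ df ?_ F hF m
    intro j
    exact (hf j).map _
  -- homogeneous choice
  have h1 : ∀ i, ∃ (ψ : MvPolynomial (Fin (n + 1)) k) (δ : MvPolynomial (Fin (n + 1)) O),
      δ ∈ I ∧ δ.IsHomogeneous q ∧ Res δ = Res (φ i) - expand p ψ := by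
    intro i
    obtain ⟨ψ, hψi⟩ := hψ' i
    obtain ⟨ψ', hψ'⟩ := hom_expand p q hp0 ψ
    have h2 := hhom _ hψi q
    rw [map_sub, hψ', homogeneousComponent_eq_self ((hφ i).map _)] at h2
    obtain ⟨d, hd, hd'⟩ := (Ideal.mem_map_iff_of_surjective Res hsurj).1 h2
    refine ⟨ψ', homogeneousComponent q d, hi_span f df hf d hd q,
      homogeneousComponent_isHomogeneous q d, ?_⟩
    rw [hRes, map_hom, ← hRes, hd', map_sub, homogeneousComponent_eq_self ((hφ i).map _), ← hψ',
      homogeneousComponent_eq_self (homogeneousComponent_isHomogeneous _ _)]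
  choose ψ δ hδI hδh hδ using h1
  set φ' : Fin (n + 1) → MvPolynomial (Fin (n + 1)) O := fun i => φ i - δ i with hφ'
  have hφ'res : ∀ i, Res (φ' i) = expand p (ψ i) := by
    intro i
    rw [hφ']
    simp only [map_sub, hδ i, sub_sub_cancel]
  have hdiff : ∀ i, φ' i - φ i ∈ I := by
    intro i
    rw [hφ']
    simp only [sub_sub_cancel_left]
    exact I.neg_mem (hδI i)
  have hbI : ∀ j, bind₁ φ' (f j) ∈ I := by
    intro j
    have := I.add_mem (bind_congr I φ φ' hdiff (f j)) (hbind j)
    simpa using this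
  have hsq : ∀ j, ∃ h ∈ I ^ 2, Res h = Res (bind₁ φ' (f j)) := by
    intro j
    have h2 : Res (bind₁ φ' (f j)) = expand p (bind₁ ψ (Res (f j))) := by
      rw [expand_bind₁, hRes, MvPolynomial.map_bind₁]
      congr 1
      congr 1
      funext i
      exact hφ'res i
    obtain ⟨G, hG⟩ := exists_root p (bind₁ ψ (Res (f j)))
    have h3 : G ^ p ∈ I.map Res := by
      rw [hG, ← h2]
      exact Ideal.mem_map_of_mem _ (hbI j)
    have h4 : G ∈ I.map Res := hrad ⟨p, h3⟩
    have h5 : G ^ p ∈ (I.map Res) ^ 2 := by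
      have : G ^ p = G ^ 2 * G ^ (p - 2) := by
        rw [← pow_add]
        congr 1
        omega
      rw [this]
      exact Ideal.mul_mem_right _ _ (Ideal.pow_mem_pow h4 2)
    rw [← Ideal.map_pow] at h5
    obtain ⟨h, hh, hh'⟩ := (Ideal.mem_map_iff_of_surjective Res hsurj).1 h5
    exact ⟨h, hh, by rw [hh', hG, h2]⟩
  have hfac : ∀ j, ∃ a : O, ¬IsUnit a ∧
      bind₁ φ' (f j) ∈ Ideal.span {C a} * I ⊔ I ^ 2 := by
    intro j
    obtain ⟨h, hh, hh'⟩ := hsq j
    have hεI : bind₁ φ' (f j) - h ∈ I := by
      refine I.sub_mem (hbI j) ?_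
      exact Ideal.pow_le_self (by norm_num) hh
    by_cases h0 : bind₁ φ' (f j) - h = 0
    · refine ⟨0, not_isUnit_zero, ?_⟩
      rw [sub_eq_zero] at h0
      rw [h0]
      exact Ideal.mem_sup_right hh
    · have hcoef : ∀ d, ¬IsUnit (coeff d (bind₁ φ' (f j) - h)) := by
        intro d hu
        have : Res (bind₁ φ' (f j) - h) = 0 := by
          rw [map_sub, hh', sub_self]
        have h3 : res (coeff d (bind₁ φ' (f j) - h)) = 0 := by
          rw [← coeff_map, ← hRes, this, coeff_zero]
        rw [IsLocalRing.residue_eq_zero_iff] at h3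
        exact h3 hu
      obtain ⟨a, G, ha, ha0, hG⟩ := factor htot _ hcoef h0
      refine ⟨a, ha, ?_⟩
      have hGI : G ∈ I := htf a G ha0 (by rw [← hG]; exact hεI)
      have : bind₁ φ' (f j) = C a * G + h := by
        rw [← hG]
        ring
      rw [this]
      exact Ideal.add_mem _ (Ideal.mem_sup_left
        (Ideal.mul_mem_mul (Ideal.mem_span_singleton_self _) hGI)) (Ideal.mem_sup_right hh)
  choose a ha hmem using hfac
  have hμ : ∃ μ : O, ¬IsUnit μ ∧ ∀ j, μ ∣ a j := by
    rcases isEmpty_or_nonempty J with hJ | hJ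
    · exact ⟨0, not_isUnit_zero, fun j => (hJ.false j).elim⟩
    · cases nonempty_fintype J
      obtain ⟨i, -, hi⟩ := exists_dvd htot a Finset.univ Finset.univ_nonempty
      exact ⟨a i, ha i, fun j => hi j (Finset.mem_univ _)⟩
  obtain ⟨μ, hμ, hdvd⟩ := hμ
  refine ⟨φ', μ, hμ, ?_, hdiff, ?_⟩
  · intro i
    exact (hφ i).sub (hδh i)
  · intro j
    have hle : Ideal.span {(C (a j) : MvPolynomial (Fin (n + 1)) O)} * I ⊔ I ^ 2 ≤
        Ideal.span {C μ} * I ⊔ I ^ 2 := by
      refine sup_le_sup_right (Ideal.mul_mono_left ?_) _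
      rw [Ideal.span_singleton_le_span_singleton]
      exact (map_dvd C (hdvd j))
    exact hle (hmem j)

end Pool.Agent.CSM
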