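import Pool.Agent.CSM.MAIN

/-!
# Self-maps whose reduction factors through the Frobenius map
-/

set_option autoImplicit false
set_option linter.unusedSectionVars false
set_option linter.style.haveILetI false

noncomputable section

namespace Pool.Agent.CSM

open MvPolynomial Pool.Agent.LibDb3ab1 Pool.Agent.DC MAIN

universe u

theorem FROBM.charP {p : ℕ} [Fact p.Prime] {K : Type u} [Field K] (O : ValuationSubring K)
    [Fact ¬IsUnit (p : O)] : CharP (IsLocalRing.ResidueField O) p := by
  rw [CharP.charP_iff_prime_eq_zero (Fact.out : p.Prime)]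
  have h1 : IsLocalRing.residue O (p : O) = 0 := by
    rw [IsLocalRing.residue_eq_zero_iff]
    exact (IsLocalRing.mem_maximalIdeal _).mpr (Fact.out : ¬IsUnit (p : O))
  rwa [map_natCast] at h1

theorem FROBM.perfect {p : ℕ} [Fact p.Prime] {K : Type u} [Field K] (O : ValuationSubring K)
    [Fact ¬IsUnit (p : O)] [CharP (IsLocalRing.ResidueField O) p]
    (hF : Function.Surjective (frobenius (ModP O p) p)) :
    PerfectRing (IsLocalRing.ResidueField O) p := by
  apply PerfectRing.ofSurjective
  intro x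
  obtain ⟨a, rfl⟩ := IsLocalRing.residue_surjective x
  obtain ⟨y, hy⟩ := hF (Ideal.Quotient.mk _ a)
  obtain ⟨c, rfl⟩ := Ideal.Quotient.mk_surjective y
  refine ⟨IsLocalRing.residue O c, ?_⟩
  rw [frobenius_def, ← map_pow] at hy
  rw [frobenius_def, ← map_pow]
  have h1 : c ^ p - a ∈ Ideal.span {(p : O)} := Ideal.Quotient.eq.mp hy
  have h2 : c ^ p - a ∈ IsLocalRing.maximalIdeal O := by
    obtain ⟨d, hd⟩ := Ideal.mem_span_singleton.mp h1
    rw [hd]
    exact Ideal.mul_mem_right _ _
      ((IsLocalRing.mem_maximalIdeal _).mpr (Fact.out : ¬IsUnit (p : O)))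
  exact Ideal.Quotient.eq.mpr h2

/-- The theorem for self-maps whose reduction factors through the Frobenius map. -/
theorem main_F (hStart : Stmt_Start.{u}) (hContr : Stmt_Contr.{u}) (hNoz : Stmt_Noz.{u})
    (hImage : Stmt_Image.{u}) (hCert : Stmt_Cert.{u}) (hFrob : Stmt_Frob.{u}) {p : ℕ}
    [Fact p.Prime] {K : Type u} [Field K] [CharZero K]
    {O : ValuationSubring K} [Fact ¬IsUnit (p : O)] [IsAdicComplete (Ideal.span {(p : O)}) O]
    (b : TB O p) {n d q : ℕ} (hq : 0 < q) {J : Type} [Finite J]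
    (f : J → MvPolynomial (Fin (n + 1)) O) (df : J → ℕ) (hf : ∀ j, (f j).IsHomogeneous (df j))
    (φ : Fin (n + 1) → MvPolynomial (Fin (n + 1)) O) (hφ : ∀ i, (φ i).IsHomogeneous q)
    (hflat : ∀ (a : O) (F : MvPolynomial (Fin (n + 1)) O), a ≠ 0 →
      C a * F ∈ Ideal.span (Set.range f) → F ∈ Ideal.span (Set.range f))
    (hred : (Ideal.span (Set.range fun j =>
      MvPolynomial.map (IsLocalRing.residue O) (f j))).IsRadical)
    (hself : ∀ j, bind₁ φ (f j) ∈ Ideal.span (Set.range f))
    (hbase : ∀ z : Fin (n + 1) → AlgebraicClosure (IsLocalRing.ResidueField O),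
      (∀ j, aeval z (MvPolynomial.map (IsLocalRing.residue O) (f j)) = 0) →
      (∀ i, aeval z (MvPolynomial.map (IsLocalRing.residue O) (φ i)) = 0) → z = 0)
    (hfact : ∀ i, ∃ ψ : MvPolynomial (Fin (n + 1)) (IsLocalRing.ResidueField O),
      MvPolynomial.map (IsLocalRing.residue O) (φ i) - expand p ψ ∈
        Ideal.span (Set.range fun j => MvPolynomial.map (IsLocalRing.residue O) (f j)))
    (hdim : ringKrullDim (MvPolynomial (Fin (n + 1)) K ⧸
      Ideal.span (Set.range fun j => MvPolynomial.map O.subtype (f j))) = (d + 1 : ℕ)) :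
    TiltApprox p O (Ideal.span (Set.range fun j => MvPolynomial.map O.subtype (f j))) := by
  haveI := FROBM.charP (p := p) O
  haveI := FROBM.perfect (p := p) O b.hF
  obtain ⟨φ', μ, hμ, hφ', hsub, H1⟩ := hFrob p K O n q J f df hf φ hφ hflat hred hself hfact
  refine main_K hStart hContr hNoz hImage hCert b hq f df hf φ' hφ' μ hμ H1 ?_ hdim
  intro z hfz hφz
  apply hbase z hfz
  intro i
  have h1 : Ideal.span (Set.range f) ≤ RingHom.ker
      ((aeval z : MvPolynomial (Fin (n + 1)) (IsLocalRing.ResidueField O) →ₐ[_]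
        AlgebraicClosure (IsLocalRing.ResidueField O)).toRingHom.comp
        (MvPolynomial.map (IsLocalRing.residue O))) := by
    rw [Ideal.span_le]
    rintro _ ⟨j, rfl⟩
    exact hfz j
  have h2 := h1 (hsub i)
  rw [RingHom.mem_ker, map_sub, sub_eq_zero] at h2
  have h3 : aeval z (MvPolynomial.map (IsLocalRing.residue O) (φ' i)) =
      aeval z (MvPolynomial.map (IsLocalRing.residue O) (φ i)) := h2
  rw [← h3]
  exact hφz i

end Pool.Agent.CSM
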