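import Pool.Agent.CSM.Defs
import Pool.Agent.DC.DIMF

/-!
# Module NNG: Noether normalisation by linear forms for homogeneous ideals
-/

set_option autoImplicit false
set_option linter.unusedSectionVars false

noncomputable section

namespace Pool.Agent.CSM.NNG

open MvPolynomial Pool.Agent.DC.NN

universe u

section Main

variable {k : Type u} [Field k] {n : ℕ} (𝔓 : Ideal (MvPolynomial (Fin (n + 1)) k))

/-- if the forms are dependent, one of them can be removed -/
lemma good_pred [Infinite k]
    (hhom : ∀ F ∈ 𝔓, ∀ m, homogeneousComponent m F ∈ 𝔓) (s : ℕ)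
    (M : Fin (s + 1) → MvPolynomial (Fin (n + 1)) k) (hM : ∀ j, (M j).IsHomogeneous 1)
    (hint : (phi 𝔓 M).toRingHom.IsIntegral) (g : MvPolynomial (Fin (s + 1)) k) (hg : g ≠ 0)
    (hg0 : phi 𝔓 M g = 0) : Good 𝔓 s := by
  -- a homogeneous relation
  obtain ⟨d, hd⟩ : ∃ d, homogeneousComponent d g ≠ 0 := by
    by_contra h
    push Not at h
    apply hg
    rw [← sum_homogeneousComponent g]
    exact Finset.sum_eq_zero fun i _ => h i
  obtain ⟨G, hG, hGh, hGr⟩ : ∃ G : MvPolynomial (Fin (s + 1)) k, G ≠ 0 ∧ G.IsHomogeneous d ∧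
      aeval M G ∈ 𝔓 := by
    refine ⟨homogeneousComponent d g, hd, homogeneousComponent_isHomogeneous d g, ?_⟩
    rw [← homComp_aeval M hM]
    refine hhom _ ?_ d
    rwa [phi_apply, Ideal.Quotient.eq_zero_iff_mem] at hg0
  -- a point where `G` and the last coordinate do not vanish
  obtain ⟨c, hc⟩ : ∃ c : Fin (s + 1) → k, eval c (G * X (Fin.last s)) ≠ 0 := by
    by_contra h
    push Not at h
    have : G * X (Fin.last s) = 0 := MvPolynomial.funext fun c => by rw [h c, map_zero]
    rcases mul_eq_zero.1 this with h | h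
    · exact hG h
    · exact X_ne_zero _ h
  rw [map_mul, eval_X] at hc
  have hcs : c (Fin.last s) ≠ 0 := right_ne_zero_of_mul hc
  have hGc : eval c G ≠ 0 := left_ne_zero_of_mul hc
  -- normalised point
  let b : Fin (s + 1) → k := fun j => (c (Fin.last s))⁻¹ * c j
  have hb : eval b G ≠ 0 := by
    have h1 : eval b G = (c (Fin.last s))⁻¹ ^ d * eval c G := by
      rw [eval_eq', eval_eq', Finset.mul_sum]
      refine Finset.sum_congr rfl fun m hm => ?_
      have hm' : ∑ i, m i = d := by
        have := hGh (mem_support_iff.1 hm)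
        rw [Finsupp.weight_apply, Finsupp.sum_fintype _ _ (by simp)] at this
        simpa using this
      simp only [b, mul_pow, Finset.prod_mul_distrib]
      rw [Finset.prod_pow_eq_pow_sum, hm']
      ring
    rw [h1]
    exact mul_ne_zero (pow_ne_zero _ (inv_ne_zero hcs)) hGc
  have hbl : b (Fin.last s) = 1 := inv_mul_cancel₀ hcs
  -- the new forms
  let M' : Fin s → MvPolynomial (Fin (n + 1)) k := fun i =>
    M i.castSucc - C (b i.castSucc) * M (Fin.last s)
  refine ⟨M', fun j => ((hM _).sub ((hM _).C_mul _)), ?_⟩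
  letI : Algebra (MvPolynomial (Fin s) k) (MvPolynomial (Fin (n + 1)) k ⧸ 𝔓) :=
    (phi 𝔓 M').toRingHom.toAlgebra
  have halg : ∀ x, algebraMap (MvPolynomial (Fin s) k) (MvPolynomial (Fin (n + 1)) k ⧸ 𝔓) x =
      phi 𝔓 M' x := fun x => rfl
  have hmkC : ∀ x : k, algebraMap k (MvPolynomial (Fin (n + 1)) k ⧸ 𝔓) x =
      Ideal.Quotient.mk 𝔓 (C x) := fun x => rfl
  -- the last form is integral
  have hlast : IsIntegral (MvPolynomial (Fin s) k) (Ideal.Quotient.mk 𝔓 (M (Fin.last s))) := by
    let a : Fin (s + 1) → MvPolynomial (Fin s) k :=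
      Fin.lastCases (motive := fun _ => MvPolynomial (Fin s) k) 0 (fun i => X i)
    let b' : Fin (s + 1) → MvPolynomial (Fin s) k := fun j => C (b j)
    obtain ⟨h1, h2⟩ := top_aeval G hGh a b'
    have h3 : aeval b' G = C (eval b G) := by
      have : (aeval b' : MvPolynomial (Fin (s + 1)) k →ₐ[k] MvPolynomial (Fin s) k) =
          (Algebra.ofId k (MvPolynomial (Fin s) k)).comp (aeval b) := by
        apply MvPolynomial.algHom_ext
        intro i
        simp [b', Algebra.ofId_apply]
      rw [this]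
      simp [Algebra.ofId_apply]
    rw [h3] at h2
    set q : Polynomial (MvPolynomial (Fin s) k) := aeval (fun j =>
      Polynomial.C (a j) + Polynomial.C (b' j) * Polynomial.X :
      Fin (s + 1) → Polynomial (MvPolynomial (Fin s) k)) G with hq
    have h4 : (Polynomial.C (C (eval b G)⁻¹) * q).Monic := by
      apply Polynomial.monic_of_natDegree_le_of_coeff_eq_one d
      · exact (Polynomial.natDegree_C_mul_le _ _).trans h1
      · rw [Polynomial.coeff_C_mul, h2, ← C_mul, inv_mul_cancel₀ hb, C_1]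
    refine ⟨_, h4, ?_⟩
    rw [Polynomial.eval₂_mul]
    have h5 : q.eval₂ (algebraMap (MvPolynomial (Fin s) k) (MvPolynomial (Fin (n + 1)) k ⧸ 𝔓))
        (Ideal.Quotient.mk 𝔓 (M (Fin.last s))) = 0 := by
      have h6 : (Polynomial.eval₂RingHom (algebraMap (MvPolynomial (Fin s) k)
          (MvPolynomial (Fin (n + 1)) k ⧸ 𝔓))
          (Ideal.Quotient.mk 𝔓 (M (Fin.last s)))).comp
          (aeval (fun j => Polynomial.C (a j) + Polynomial.C (b' j) * Polynomial.X :
            Fin (s + 1) → Polynomial (MvPolynomial (Fin s) k)) :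
            MvPolynomial (Fin (s + 1)) k →ₐ[k] _).toRingHom =
          (phi 𝔓 M).toRingHom := by
        apply MvPolynomial.ringHom_ext
        · intro x
          have : algebraMap k (MvPolynomial (Fin s) k) x = C x := rfl
          simp [Polynomial.algebraMap_apply, halg, phi_apply]
        · intro j
          refine Fin.lastCases ?_ (fun i => ?_) j
          · simp [a, b', hbl, halg, phi_apply]
          · simp [a, b', halg, phi_apply, M', hmkC]
      have h7 := congrArg (fun f : MvPolynomial (Fin (s + 1)) k →+* _ => f G) h6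
      simp only [RingHom.comp_apply] at h7
      have h8 : (phi 𝔓 M).toRingHom G = 0 := by
        change phi 𝔓 M G = 0
        rw [phi_apply, Ideal.Quotient.eq_zero_iff_mem]
        exact hGr
      rw [h8] at h7
      exact h7
    rw [h5, mul_zero]
  -- all forms are integral
  have hall : ∀ j, Ideal.Quotient.mk 𝔓 (M j) ∈ integralClosure (MvPolynomial (Fin s) k)
      (MvPolynomial (Fin (n + 1)) k ⧸ 𝔓) := by
    intro j
    refine Fin.lastCases hlast (fun i => ?_) j
    have h1 : Ideal.Quotient.mk 𝔓 (M i.castSucc) =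
        algebraMap (MvPolynomial (Fin s) k) _ (X i) +
          algebraMap (MvPolynomial (Fin s) k) _ (C (b i.castSucc)) *
            Ideal.Quotient.mk 𝔓 (M (Fin.last s)) := by
      simp [halg, phi_apply, M', hmkC]
    rw [h1]
    exact Subalgebra.add_mem _ (Subalgebra.algebraMap_mem _ _)
      (Subalgebra.mul_mem _ (Subalgebra.algebraMap_mem _ _) hlast)
  have hall2 : ∀ p : MvPolynomial (Fin (s + 1)) k, phi 𝔓 M p ∈
      integralClosure (MvPolynomial (Fin s) k) (MvPolynomial (Fin (n + 1)) k ⧸ 𝔓) := by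
    intro p
    induction p using MvPolynomial.induction_on with
    | C x =>
      have h1 : phi 𝔓 M (C x) = algebraMap (MvPolynomial (Fin s) k) _ (C x) := by
        simp [halg, phi_apply]
      rw [h1]
      exact Subalgebra.algebraMap_mem _ _
    | add p q hp hq => rw [map_add]; exact Subalgebra.add_mem _ hp hq
    | mul_X p j hp =>
      rw [map_mul]
      refine Subalgebra.mul_mem _ hp ?_
      rw [phi_apply, aeval_X]
      exact hall j
  let φ' : MvPolynomial (Fin (s + 1)) k →+*
      integralClosure (MvPolynomial (Fin s) k) (MvPolynomial (Fin (n + 1)) k ⧸ 𝔓) :=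
    (phi 𝔓 M).toRingHom.codRestrict
      (integralClosure (MvPolynomial (Fin s) k) (MvPolynomial (Fin (n + 1)) k ⧸ 𝔓)) hall2
  intro x
  obtain ⟨P, hP, hPx⟩ := hint x
  change IsIntegral (MvPolynomial (Fin s) k) x
  refine isIntegral_trans (A := integralClosure (MvPolynomial (Fin s) k)
    (MvPolynomial (Fin (n + 1)) k ⧸ 𝔓)) x ⟨P.map φ', hP.map φ', ?_⟩
  rw [Polynomial.eval₂_map]
  have h9 : (algebraMap (integralClosure (MvPolynomial (Fin s) k)
      (MvPolynomial (Fin (n + 1)) k ⧸ 𝔓)) (MvPolynomial (Fin (n + 1)) k ⧸ 𝔓)).comp φ' =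
      (phi 𝔓 M).toRingHom := by
    apply RingHom.ext
    intro p
    rfl
  rw [h9]
  exact hPx

lemma exists_forms [Infinite k] (hne : 𝔓 ≠ ⊤)
    (hhom : ∀ F ∈ 𝔓, ∀ m, homogeneousComponent m F ∈ 𝔓) :
    ∃ (r : ℕ) (M : Fin r → MvPolynomial (Fin (n + 1)) k), (∀ j, (M j).IsHomogeneous 1) ∧
      (phi 𝔓 M).toRingHom.IsIntegral ∧ Function.Injective (phi 𝔓 M) := by
  classical
  have hex : ∃ r, Good 𝔓 r := ⟨n + 1, good_succ 𝔓⟩
  obtain ⟨M, hM, hint⟩ := Nat.find_spec hex
  refine ⟨Nat.find hex, M, hM, hint, ?_⟩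
  rw [injective_iff_map_eq_zero]
  intro g hg0
  by_contra hg
  rcases Nat.eq_zero_or_pos (Nat.find hex) with h0 | h0
  · -- no variables
    generalize Nat.find hex = r at M hM hint g hg0 hg h0
    subst h0
    obtain ⟨c, rfl⟩ := C_surjective (Fin 0) g
    have hc : c ≠ 0 := by rintro rfl; exact hg C_0
    haveI : Nontrivial (MvPolynomial (Fin (n + 1)) k ⧸ 𝔓) :=
      Ideal.Quotient.nontrivial_iff.2 hne
    have h1 : phi 𝔓 M (C c) = algebraMap k (MvPolynomial (Fin (n + 1)) k ⧸ 𝔓) c :=
      (phi 𝔓 M).commutes c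
    rw [h1] at hg0
    exact hc ((map_eq_zero_iff _ (algebraMap k (MvPolynomial (Fin (n + 1)) k ⧸ 𝔓)).injective).1 hg0)
  · obtain ⟨s, hs⟩ : ∃ s, Nat.find hex = s + 1 := ⟨Nat.find hex - 1, by omega⟩
    have hmin : ¬ Good 𝔓 s := Nat.find_min hex (by omega)
    apply hmin
    generalize Nat.find hex = r at M hM hint g hg0 hg h0 hs
    subst hs
    exact good_pred 𝔓 hhom s M hM hint g hg hg0

end Main

end Pool.Agent.CSM.NNG

namespace Pool.Agent.CSM

open MvPolynomial

universe u

theorem nng_proof : Stmt_Nng.{u} := by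
  intro k _ _ n I hne hhom
  obtain ⟨r, M, hM, hint, hinj⟩ := NNG.exists_forms I hne hhom
  refine ⟨r, M, hM, hint, hinj, ?_⟩
  have h1 := Pool.Agent.DC.DIMFX.dim_eq (Pool.Agent.DC.NN.phi I M).toRingHom hint hinj
  rw [MvPolynomial.ringKrullDim_of_isNoetherianRing, ringKrullDim_eq_zero_of_field, zero_add,
    Nat.card_eq_fintype_card, Fintype.card_fin] at h1
  exact h1.symm

end Pool.Agent.CSM
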