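import Pool.Agent.CSM.Defs

/-!
# CSM / NOZ: the self-map preserves normalised points
-/

set_option autoImplicit false

noncomputable section

namespace Pool.Agent.CSM

open MvPolynomial

universe u

theorem noz_proof : Stmt_Noz.{u} := by
  intro A B _ _ _ _ ι hι n J f φ s hs w hw hf
  by_contra hcon
  push Not at hcon
  obtain ⟨l, hl⟩ := hw
  have hle : Ideal.span (Set.range f) ⊔ Ideal.span (Set.range φ) ⊔
      Ideal.map C (IsLocalRing.maximalIdeal A) ≤
      Ideal.comap (eval₂Hom ι w) (IsLocalRing.maximalIdeal B) := by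
    refine sup_le (sup_le ?_ ?_) ?_
    · rw [Ideal.span_le]
      rintro _ ⟨j, rfl⟩
      rw [SetLike.mem_coe, Ideal.mem_comap, IsLocalRing.mem_maximalIdeal, mem_nonunits_iff]
      exact hf j
    · rw [Ideal.span_le]
      rintro _ ⟨j, rfl⟩
      rw [SetLike.mem_coe, Ideal.mem_comap, IsLocalRing.mem_maximalIdeal, mem_nonunits_iff]
      exact hcon j
    · rw [Ideal.map_le_iff_le_comap]
      intro a ha
      rw [Ideal.mem_comap, Ideal.mem_comap, IsLocalRing.mem_maximalIdeal, mem_nonunits_iff]
      rw [IsLocalRing.mem_maximalIdeal, mem_nonunits_iff] at ha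
      simpa using hι a ha
  have h1 := hle (hs l)
  rw [Ideal.mem_comap, IsLocalRing.mem_maximalIdeal, mem_nonunits_iff, map_pow] at h1
  apply h1
  simpa using hl.pow s

end Pool.Agent.CSM
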