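import Pool.Agent.CSM.Defs
import Pool.Agent.DC.PRIME
import Pool.Agent.DC.DIMF

/-!
# PRD: homogeneous primes of a given smaller dimension
-/

set_option autoImplicit false
set_option linter.style.haveILetI false

noncomputable section

namespace Pool.Agent.CSM

open MvPolynomial Pool.Agent.DC

universe u

namespace PRDX

attribute [local instance] MvPolynomial.gradedAlgebra

/-- a homogeneous prime above `I` of dimension at least `d + 1` -/
theorem exists_big {k : Type u} [Field k] {n d : ℕ} (I : Ideal (MvPolynomial (Fin (n + 1)) k))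
    (hI : HI I)
    (hdim : ((d + 1 : ℕ) : WithBot ℕ∞) ≤ ringKrullDim (MvPolynomial (Fin (n + 1)) k ⧸ I)) :
    ∃ q : Ideal (MvPolynomial (Fin (n + 1)) k), I ≤ q ∧ q.IsPrime ∧ HI q ∧
      ((d + 1 : ℕ) : WithBot ℕ∞) ≤ ringKrullDim (MvPolynomial (Fin (n + 1)) k ⧸ q) := by
  have hI' := (PRIME.homog_iff I).mpr hI
  have h1 : ((d + 1 : ℕ) : WithBot ℕ∞) ≤
      Order.krullDim (PrimeSpectrum.zeroLocus (R := MvPolynomial (Fin (n + 1)) k) I) := by
    rw [← ringKrullDim_quotient]; exact hdim
  obtain ⟨l, hl⟩ := Order.le_krullDim_iff.mp h1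
  have hhead : (l.head).1.asIdeal.IsPrime := (l.head).1.isPrime
  obtain ⟨q, hq, hqle⟩ := Ideal.exists_minimalPrimes_le (I := I) (J := (l.head).1.asIdeal)
    (by exact (l.head).2)
  have hqp : q.IsPrime := hq.1.1
  refine ⟨q, hq.1.2, hqp, (PRIME.homog_iff q).mp (PRIME.minimal_homog I q hI' hq), ?_⟩
  have h2 : ((d + 1 : ℕ) : WithBot ℕ∞) ≤
      Order.krullDim (PrimeSpectrum.zeroLocus (R := MvPolynomial (Fin (n + 1)) k) q) := by
    rw [Order.le_krullDim_iff]
    refine ⟨⟨l.length, fun i => ⟨(l i).1, ?_⟩, ?_⟩, hl⟩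
    · have h3 : l.head ≤ l i := LTSeries.monotone l (Fin.zero_le i)
      have h4 : (l.head).1.asIdeal ≤ (l i).1.asIdeal := h3
      have h5 : q ≤ (l i).1.asIdeal := hqle.trans h4
      exact h5
    · intro i
      exact l.step i
  rw [ringKrullDim_quotient]
  exact h2

/-- the projection killing the variables with index at least `e` -/
def pr (k : Type u) [Field k] (r e : ℕ) : MvPolynomial (Fin r) k →ₐ[k] MvPolynomial (Fin e) k :=
  aeval fun j => if h : j.val < e then X ⟨j.val, h⟩ else 0

theorem main {k : Type u} [Field k] [Infinite k] (hN : Stmt_Nng.{u}) {n d : ℕ}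
    (I : Ideal (MvPolynomial (Fin (n + 1)) k)) (hI : HI I)
    (hdim : ((d + 1 : ℕ) : WithBot ℕ∞) ≤ ringKrullDim (MvPolynomial (Fin (n + 1)) k ⧸ I)) :
    ∃ 𝔓 : Ideal (MvPolynomial (Fin (n + 1)) k), I ≤ 𝔓 ∧ 𝔓.IsPrime ∧ HI 𝔓 ∧
      ringKrullDim (MvPolynomial (Fin (n + 1)) k ⧸ 𝔓) = (d + 1 : ℕ) := by
  obtain ⟨q, hIq, hqp, hqh, hqd⟩ := exists_big I hI hdim
  obtain ⟨r, M, hM, hint, hinj, hr⟩ := hN k n q hqp.ne_top hqh
  have hrd : d + 1 ≤ r := by
    rw [hr] at hqd
    exact_mod_cast hqd
  -- the prime over the kernel of the projection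
  letI : Algebra (MvPolynomial (Fin r) k) (MvPolynomial (Fin (n + 1)) k ⧸ q) :=
    (NN.phi q M).toRingHom.toAlgebra
  haveI : Algebra.IsIntegral (MvPolynomial (Fin r) k) (MvPolynomial (Fin (n + 1)) k ⧸ q) :=
    ⟨hint⟩
  set a : Ideal (MvPolynomial (Fin r) k) := RingHom.ker (pr k r (d + 1)).toRingHom with ha
  haveI hap : a.IsPrime := RingHom.ker_isPrime _
  obtain ⟨Q', -, hQ'p, hQ'a⟩ := Ideal.exists_ideal_over_prime_of_isIntegral
    (R := MvPolynomial (Fin r) k) (S := MvPolynomial (Fin (n + 1)) k ⧸ q) a ⊥ (by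
      have h0 : Ideal.comap (algebraMap (MvPolynomial (Fin r) k)
          (MvPolynomial (Fin (n + 1)) k ⧸ q)) ⊥ = ⊥ := by
        have h1 : RingHom.ker (algebraMap (MvPolynomial (Fin r) k)
          (MvPolynomial (Fin (n + 1)) k ⧸ q)) = ⊥ :=
          (RingHom.injective_iff_ker_eq_bot _).mp hinj
        exact h1
      rw [h0]
      exact bot_le)
  set Q : Ideal (MvPolynomial (Fin (n + 1)) k) := Q'.comap (Ideal.Quotient.mk q) with hQ
  haveI hQp : Q.IsPrime := hQ'p.comap _
  have hqQ : q ≤ Q := by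
    intro x hx
    rw [hQ, Ideal.mem_comap, Ideal.Quotient.eq_zero_iff_mem.2 hx]
    exact Q'.zero_mem
  have hQa : ∀ g : MvPolynomial (Fin r) k, aeval M g ∈ Q ↔ pr k r (d + 1) g = 0 := by
    intro g
    rw [hQ, Ideal.mem_comap]
    change (algebraMap (MvPolynomial (Fin r) k) (MvPolynomial (Fin (n + 1)) k ⧸ q)) g ∈ Q' ↔ _
    rw [← Ideal.mem_comap, hQ'a, ha, RingHom.mem_ker]
    rfl
  -- the homogeneous core
  set P := (Q.homogeneousCore (homogeneousSubmodule (Fin (n + 1)) k)).toIdeal with hP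
  have hPp : P.IsPrime := Ideal.IsPrime.homogeneousCore hQp
  have hPQ : P ≤ Q := Ideal.toIdeal_homogeneousCore_le _ Q
  have hqP : q ≤ P := by
    rw [← ((PRIME.homog_iff q).mpr hqh).toIdeal_homogeneousCore_eq_self]
    exact Ideal.homogeneousCore_mono _ hqQ
  have hPh : HI P := (PRIME.homog_iff P).mp (HomogeneousIdeal.isHomogeneous _)
  have hMP : ∀ j : Fin r, d + 1 ≤ j.val → M j ∈ P := by
    intro j hj
    have h1 : M j ∈ Q := by
      have h2 := (hQa (X j)).2 (by
        unfold pr
        rw [aeval_X, dif_neg (by omega)])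
      rwa [aeval_X] at h2
    exact Ideal.mem_homogeneousCore_of_homogeneous_of_mem ⟨1, hM j⟩ h1
  refine ⟨P, hIq.trans hqP, hPp, hPh, ?_⟩
  -- the finite extension
  let M' : Fin (d + 1) → MvPolynomial (Fin (n + 1)) k := fun j => M (Fin.castLE hrd j)
  have hfac : (NN.phi P M).toRingHom
      = ((NN.phi P M').toRingHom).comp (pr k r (d + 1)).toRingHom := by
    apply MvPolynomial.ringHom_ext
    · intro x
      change NN.phi P M (C x) = NN.phi P M' (pr k r (d + 1) (C x))
      have h1 : pr k r (d + 1) (C x) = C x := by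
        unfold pr
        rw [aeval_C]
        rfl
      rw [h1, NN.phi_apply, NN.phi_apply, aeval_C, aeval_C]
    · intro j
      change NN.phi P M (X j) = NN.phi P M' (pr k r (d + 1) (X j))
      unfold pr
      rw [aeval_X]
      by_cases h : j.val < d + 1
      · rw [dif_pos h, NN.phi_apply, NN.phi_apply, aeval_X, aeval_X]
        rfl
      · rw [dif_neg h, map_zero, NN.phi_apply, aeval_X, Ideal.Quotient.eq_zero_iff_mem]
        exact hMP j (by omega)
  have hintP : (NN.phi P M).toRingHom.IsIntegral := by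
    have h1 : (NN.phi P M).toRingHom
        = (Ideal.Quotient.factor hqP).comp (NN.phi q M).toRingHom := by
      apply RingHom.ext
      intro g
      rfl
    rw [h1]
    exact RingHom.IsIntegral.trans _ _ hint
      (RingHom.isIntegral_of_surjective _ (Ideal.Quotient.factor_surjective hqP))
  have hint' : (NN.phi P M').toRingHom.IsIntegral := by
    rw [hfac] at hintP
    exact RingHom.IsIntegral.tower_top _ _ hintP
  have hinj' : Function.Injective (NN.phi P M').toRingHom := by
    rw [injective_iff_map_eq_zero]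
    intro g hg
    have h1 : aeval M' g ∈ P := by
      change NN.phi P M' g = 0 at hg
      rwa [NN.phi_apply, Ideal.Quotient.eq_zero_iff_mem] at hg
    have h2 : aeval M (rename (Fin.castLE hrd) g) = aeval M' g := by
      rw [aeval_rename]
      rfl
    have h3 := (hQa (rename (Fin.castLE hrd) g)).1 (by rw [h2]; exact hPQ h1)
    have h4 : pr k r (d + 1) (rename (Fin.castLE hrd) g) = g := by
      unfold pr
      rw [aeval_rename]
      have h5 : ((fun j : Fin r => if h : j.val < d + 1 then X ⟨j.val, h⟩ else 0 :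
          Fin r → MvPolynomial (Fin (d + 1)) k) ∘ Fin.castLE hrd) = X := by
        funext j
        have hj := j.isLt
        simp only [Function.comp, Fin.val_castLE]
        rw [dif_pos hj]
      rw [h5, aeval_X_left_apply]
    rw [h4] at h3
    exact h3
  have h := DIMFX.dim_eq (NN.phi P M').toRingHom hint' hinj'
  rw [← h, MvPolynomial.ringKrullDim_of_isNoetherianRing, ringKrullDim_eq_zero_of_field, zero_add,
    Nat.card_eq_fintype_card, Fintype.card_fin]

end PRDX

theorem prd_proof (hN : Stmt_Nng.{u}) : Stmt_Prd.{u} := by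
  intro k _ _ n d I hI hdim
  exact PRDX.main hN I hI hdim

end Pool.Agent.CSM
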