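import Pool.Agent.CSM.Defs

/-!
# RAC: residue fields of valuation rings of algebraically closed fields
-/

set_option autoImplicit false

noncomputable section

namespace Pool.Agent.CSM

universe u

open Polynomial

theorem rac_proof : Stmt_Rac.{u} := by
  intro K _ _ O
  refine IsAlgClosed.of_exists_root _ ?_
  intro P hP hirr
  obtain ⟨Q, hQmap, hQdeg, hQmonic⟩ :=
    Polynomial.lifts_and_natDegree_eq_and_monic (f := IsLocalRing.residue O) (p := P)
      ((Polynomial.mem_lifts _).2 (Polynomial.map_surjective _ IsLocalRing.residue_surjective P)) hP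
  have hdeg : (Q.map (algebraMap O K)).degree ≠ 0 := by
    rw [hQmonic.degree_map]
    intro h
    have h1 : Q.natDegree = 0 := Polynomial.natDegree_eq_of_degree_eq_some h
    have h2 : P.natDegree = 0 := by rw [← hQdeg, h1]
    exact hirr.natDegree_pos.ne' h2
  obtain ⟨x, hx⟩ := IsAlgClosed.exists_root _ hdeg
  have hint : IsIntegral O x := ⟨Q, hQmonic, by
    rw [← Polynomial.eval_map]; exact hx⟩
  obtain ⟨y, hy⟩ := IsIntegrallyClosed.isIntegral_iff.1 hint
  refine ⟨IsLocalRing.residue O y, ?_⟩
  have h3 : Q.eval y = 0 := by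
    have h4 : algebraMap O K (Q.eval y) = 0 := by
      rw [← Polynomial.eval₂_at_apply, hy, ← Polynomial.eval_map]
      exact hx
    exact (map_eq_zero_iff _ (IsFractionRing.injective O K)).1 h4
  rw [← hQmap, Polynomial.eval_map, Polynomial.eval₂_at_apply, h3, map_zero]

end Pool.Agent.CSM
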