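import Pool.Agent.CSM.Defs
import Pool.Agent.DC.PRIME

/-!
# RESD: the dimension does not drop under reduction
-/

set_option autoImplicit false

namespace Pool.Agent.CSM

open MvPolynomial Pool.Agent.LibDb3ab1 Pool.Agent.DC

universe u

namespace RESD

theorem le_of_not {x : WithBot ℕ∞} {d : ℕ} (h : ¬ ((d + 1 : ℕ) : WithBot ℕ∞) ≤ x) :
    x ≤ (d : WithBot ℕ∞) := by
  induction x using WithBot.recBotCoe with
  | bot => exact bot_le
  | coe y =>
    have h1 : ¬ ((d + 1 : ℕ) : ℕ∞) ≤ y := by
      intro h2
      exact h (by exact_mod_cast (WithBot.coe_le_coe.mpr h2))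
    have h2 : y < ((d + 1 : ℕ) : ℕ∞) := not_le.mp h1
    have h3 : y ≤ (d : ℕ∞) := by
      induction y using ENat.recTopCoe with
      | top => exact absurd le_top h1
      | coe m =>
        have : m < d + 1 := by exact_mod_cast h2
        exact_mod_cast (Nat.lt_succ_iff.mp this)
    exact_mod_cast (WithBot.coe_le_coe.mpr h3)

attribute [local instance] MvPolynomial.gradedAlgebra in
theorem span_HI {k : Type u} [Field k] {n : ℕ} {J : Type} (g : J → MvPolynomial (Fin (n + 1)) k)
    (df : J → ℕ) (hg : ∀ j, (g j).IsHomogeneous (df j)) : HI (Ideal.span (Set.range g)) := by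
  refine (PRIME.homog_iff _).mp (Ideal.homogeneous_span _ _ ?_)
  rintro x ⟨j, rfl⟩
  exact ⟨df j, (MvPolynomial.mem_homogeneousSubmodule _ _).mpr (hg j)⟩

theorem eval_scale {k : Type u} [Field k] {n e : ℕ} {F : MvPolynomial (Fin (n + 1)) k}
    (hF : F.IsHomogeneous e) (c : k) (x : Fin (n + 1) → k) :
    eval (fun i => c * x i) F = c ^ e * eval x F := by
  rw [eval_eq, eval_eq, Finset.mul_sum]
  refine Finset.sum_congr rfl (fun m hm => ?_)
  have h1 : ∑ i, m i = e := by
    have h := hF (mem_support_iff.mp hm)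
    rw [← h, Finsupp.weight_apply, Finsupp.sum_fintype]
    · simp
    · simp
  have h2 : ∏ i ∈ m.support, (c * x i) ^ m i = c ^ e * ∏ i ∈ m.support, x i ^ m i := by
    rw [← h1]
    simp only [mul_pow]
    rw [Finset.prod_mul_distrib, Finset.prod_pow_eq_pow_sum]
    congr 2
    refine Finset.sum_subset (Finset.subset_univ _) (fun i _ hi => ?_)
    exact Finsupp.notMem_support_iff.mp hi
  rw [h2]
  ring

theorem eval_span {k : Type u} [Field k] {n : ℕ} {J : Type} {g : J → MvPolynomial (Fin (n + 1)) k}
    {z : Fin (n + 1) → k} (h : ∀ j, eval z (g j) = 0) :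
    ∀ F ∈ Ideal.span (Set.range g), eval z F = 0 := by
  intro F hF
  have h1 : Ideal.span (Set.range g) ≤ RingHom.ker (eval z) := by
    rw [Ideal.span_le]
    rintro x ⟨j, rfl⟩
    exact h j
  exact h1 hF

/-- linear forms lift -/
theorem lift_linear {O k : Type u} [CommRing O] [Field k] (red : O →+* k)
    (hred : Function.Surjective red) {n : ℕ} {L : MvPolynomial (Fin (n + 1)) k}
    (hL : L.IsHomogeneous 1) :
    ∃ M : MvPolynomial (Fin (n + 1)) O, M.IsHomogeneous 1 ∧ MvPolynomial.map red M = L := by
  choose s hs using hred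
  refine ⟨∑ m ∈ L.support, monomial m (s (L.coeff m)), ?_, ?_⟩
  · refine IsHomogeneous.sum _ _ _ (fun m hm => ?_)
    refine isHomogeneous_monomial _ ?_
    have h := hL (mem_support_iff.mp hm)
    exact (DFunLike.congr_fun (Finsupp.degree_eq_weight_one (R := ℕ)) m).trans h
  · rw [map_sum]
    conv_rhs => rw [L.as_sum]
    refine Finset.sum_congr rfl (fun m _ => ?_)
    rw [map_monomial, hs]

/-- a point with coordinates in `O`, one of them equal to `1` -/
theorem normalise {K : Type u} [Field K] (O : ValuationSubring K) {n : ℕ} (z : Fin (n + 1) → K)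
    (hz : z ≠ 0) : ∃ (c : K) (w : Fin (n + 1) → O) (l : Fin (n + 1)),
      (∀ i, (w i : K) = c * z i) ∧ w l = 1 := by
  obtain ⟨l, hl⟩ := Finite.exists_max (fun i => O.valuation (z i))
  have hzl : z l ≠ 0 := by
    intro h
    apply hz
    funext i
    have h1 := hl i
    rw [h, map_zero] at h1
    exact (map_eq_zero O.valuation).mp (le_antisymm h1 zero_le')
  have hmem : ∀ i, (z l)⁻¹ * z i ∈ O := by
    intro i
    rw [← ValuationSubring.valuation_le_one_iff, map_mul, map_inv₀]
    have h0 : O.valuation (z l) ≠ 0 := (map_ne_zero O.valuation).mpr hzl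
    calc (O.valuation (z l))⁻¹ * O.valuation (z i) ≤ (O.valuation (z l))⁻¹ * O.valuation (z l) :=
          mul_le_mul_right (hl i) _
      _ = 1 := inv_mul_cancel₀ h0
  refine ⟨(z l)⁻¹, fun i => ⟨(z l)⁻¹ * z i, hmem i⟩, l, fun i => rfl, ?_⟩
  exact Subtype.ext (inv_mul_cancel₀ hzl)

end RESD

open RESD in
theorem resd_proof (hRac : Stmt_Rac.{u}) (hSect : Stmt_Sect.{u}) (hDimb : Stmt_Dimb.{u}) :
    Stmt_Resd.{u} := by
  intro K _ _ O n d J f df hf hdim
  by_contra hcon
  haveI : IsAlgClosed (IsLocalRing.ResidueField O) := hRac K O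
  haveI : Infinite (IsLocalRing.ResidueField O) := IsAlgClosed.instInfinite
  have hle := le_of_not hcon
  obtain ⟨L, hL1, hL2⟩ := hSect (IsLocalRing.ResidueField O) n d _
    (span_HI (fun j => MvPolynomial.map (IsLocalRing.residue O) (f j)) df
      (fun j => (hf j).map _)) hle
  have hlift : ∀ j, ∃ M : MvPolynomial (Fin (n + 1)) O, M.IsHomogeneous 1 ∧
      MvPolynomial.map (IsLocalRing.residue O) M = L j := fun j =>
    lift_linear (IsLocalRing.residue O) IsLocalRing.residue_surjective (hL1 j)
  choose M hM1 hM2 using hlift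
  have hres := hDimb K n d (Ideal.span (Set.range fun j => MvPolynomial.map O.subtype (f j)))
    (span_HI (fun j => MvPolynomial.map O.subtype (f j)) df (fun j => (hf j).map _))
    (fun j => MvPolynomial.map O.subtype (M j)) (fun j => (hM1 j).map _) ?_
  · have h1 := le_trans hdim hres
    have h2 : ((d + 1 : ℕ) : WithBot ℕ∞) ≤ ((d : ℕ) : WithBot ℕ∞) := h1
    have h3 : d + 1 ≤ d := by exact_mod_cast h2
    omega
  · intro z hz1 hz2
    by_contra hz0
    obtain ⟨c, w, l, hw, hwl⟩ := normalise O z hz0
    have hwz : (fun i => (w i : K)) = fun i => c * z i := funext hw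
    -- equations at `w`
    have key : ∀ {e : ℕ} {G : MvPolynomial (Fin (n + 1)) O}, G.IsHomogeneous e →
        eval z (MvPolynomial.map O.subtype G) = 0 →
        eval (fun i => IsLocalRing.residue O (w i))
          (MvPolynomial.map (IsLocalRing.residue O) G) = 0 := by
      intro e G hG h0
      have h1 : eval (fun i => (w i : K)) (MvPolynomial.map O.subtype G) = 0 := by
        rw [hwz, eval_scale (hG.map _), h0, mul_zero]
      have h2 : O.subtype (eval w G) = 0 := by
        rw [← h1, eval_map]
        exact (eval₂_comp_left O.subtype (RingHom.id O) w G) |>.trans rfl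
      have h3 : eval w G = 0 := by
        have := Subtype.val_injective (p := fun x => x ∈ O) (a₁ := eval w G) (a₂ := 0)
        exact this (by rw [ZeroMemClass.coe_zero]; exact h2)
      have h4 : IsLocalRing.residue O (eval w G) = 0 := by rw [h3, map_zero]
      rw [← h4, eval_map]
      exact ((eval₂_comp_left (IsLocalRing.residue O) (RingHom.id O) w G) |>.trans rfl).symm
    have hzero := hL2 (fun i => IsLocalRing.residue O (w i))
      (eval_span (fun j => key (hf j) (hz1 _ (Ideal.subset_span ⟨j, rfl⟩))))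
      (fun j => by rw [← hM2 j]; exact key (hM1 j) (hz2 j))
    have h1 := congrFun hzero l
    rw [hwl, map_one] at h1
    exact one_ne_zero h1

end Pool.Agent.CSM
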