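import Pool.Agent.CSM.Defs

/-!
# Module REST of squad CSM: the residue map of the tilt
-/

set_option autoImplicit false
set_option linter.unusedSectionVars false

noncomputable section

namespace Pool.Agent.CSM

open MvPolynomial Pool.Agent.LibDb3ab1 Pool.Agent.DC

universe u

theorem rest_proof : Stmt_Rest.{u} := by
  intro p _ K _ O _ _ b
  have hle : ∀ a ∈ Ideal.span {(p : O)}, IsLocalRing.residue O a = 0 := by
    intro a ha
    rw [Ideal.mem_span_singleton] at ha
    obtain ⟨c, rfl⟩ := ha
    rw [map_mul]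
    have hp : IsLocalRing.residue O (p : O) = 0 := by
      rw [IsLocalRing.residue_eq_zero_iff, IsLocalRing.mem_maximalIdeal]
      exact (Fact.out : ¬IsUnit (p : O))
    rw [hp, zero_mul]
  let l : ModP O p →+* IsLocalRing.ResidueField O :=
    Ideal.Quotient.lift (Ideal.span {(p : O)}) (IsLocalRing.residue O) hle
  have hl : ∀ a : O, l (Ideal.Quotient.mk (Ideal.span {(p : O)}) a) = IsLocalRing.residue O a :=
    fun a => Ideal.Quotient.lift_mk _ _ _
  have hred : ∀ y : PreTilt O p,
      (l.comp (PreTilt.coeff 0)) y = IsLocalRing.residue O (PreTilt.untilt y) := by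
    intro y
    rw [RingHom.comp_apply, ← PreTilt.mk_untilt_eq_coeff_zero y, hl]
  refine ⟨l.comp (PreTilt.coeff 0), ?_, hred, ?_⟩
  · intro x
    obtain ⟨a, rfl⟩ := IsLocalRing.residue_surjective x
    obtain ⟨y, hy⟩ := Perfection.coeff_surjective b.hF 0
      (Ideal.Quotient.mk (Ideal.span {(p : O)}) a)
    refine ⟨y, ?_⟩
    rw [RingHom.comp_apply]
    have h1 : PreTilt.coeff 0 (y : PreTilt O p) =
        Ideal.Quotient.mk (Ideal.span {(p : O)}) a := hy
    rw [h1, hl]
  · intro y hy
    rw [hred] at hy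
    apply isUnit_of_untilt
    by_contra hn
    exact hy ((IsLocalRing.residue_eq_zero_iff _).2 ((IsLocalRing.mem_maximalIdeal _).2 hn))

end Pool.Agent.CSM
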