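import Pool.Agent.CSM.Defs

/-!
# SECT: cutting a cone of dimension at most `d` by `d` linear forms in the origin only
-/

set_option autoImplicit false
set_option linter.unusedSectionVars false

namespace Pool.Agent.CSM

open MvPolynomial Pool.Agent.LibDb3ab1 Pool.Agent.DC

universe u

namespace SECT

variable {k : Type u} [Field k] {n : ℕ}

/-- evaluation of a homogeneous polynomial at a multiple of a point -/
lemma eval_smul_homog {f : MvPolynomial (Fin (n + 1)) k} {m : ℕ} (hf : f.IsHomogeneous m)
    (t : k) (z : Fin (n + 1) → k) : eval (fun i => t * z i) f = t ^ m * eval z f := by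
  rw [eval_eq, eval_eq, Finset.mul_sum]
  refine Finset.sum_congr rfl (fun s hs => ?_)
  have hdeg : s.degree = m := by
    have h := hf (mem_support_iff.mp hs)
    rw [Finsupp.degree_eq_weight_one]
    exact h
  simp only [mul_pow, Finset.prod_mul_distrib]
  have : ∏ i ∈ s.support, t ^ s i = t ^ m := by
    rw [Finset.prod_pow_eq_pow_sum, ← hdeg]
    rfl
  rw [this]
  ring

/-- the zero set of a homogeneous ideal is a cone -/
lemma eval_smul_mem {I : Ideal (MvPolynomial (Fin (n + 1)) k)} (hI : HI I)
    {z : Fin (n + 1) → k} (hz : ∀ f ∈ I, eval z f = 0) (t : k) :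
    ∀ f ∈ I, eval (fun i => t * z i) f = 0 := by
  intro f hf
  rw [← sum_homogeneousComponent f, map_sum]
  refine Finset.sum_eq_zero (fun m _ => ?_)
  rw [eval_smul_homog (homogeneousComponent_isHomogeneous m f), hz _ (hI f hf m), mul_zero]

end SECT

open SECT in
theorem sect_proof (hN : Stmt_Nng.{u}) : Stmt_Sect.{u} := by
  intro k _ _ n d I hI hdim
  classical
  by_cases htop : I = ⊤
  · refine ⟨fun _ => 0, fun _ => isHomogeneous_zero _ _ _, fun z hz _ => ?_⟩
    have h := hz 1 (by rw [htop]; trivial)
    rw [map_one] at h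
    exact absurd h one_ne_zero
  obtain ⟨r, M, hM, hint, -, hr⟩ := hN k n I htop hI
  have hrd : r ≤ d := by
    rw [hr] at hdim
    exact_mod_cast hdim
  refine ⟨fun j => if h : (j : ℕ) < r then M ⟨j, h⟩ else 0, fun j => ?_, fun z hz hL => ?_⟩
  · by_cases h : (j : ℕ) < r
    · simp only [h, ↓reduceDIte]; exact hM _
    · simp only [h, ↓reduceDIte]; exact isHomogeneous_zero _ _ _
  have hMz : ∀ j : Fin r, eval z (M j) = 0 := by
    intro j
    have h := hL ⟨j, lt_of_lt_of_le j.2 hrd⟩
    simpa using h
  by_contra hne
  obtain ⟨i, hi⟩ : ∃ i, z i ≠ 0 := by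
    by_contra hall
    push Not at hall
    exact hne (funext hall)
  obtain ⟨P, hPm, hP⟩ := hint (Ideal.Quotient.mk I (X i))
  -- the constants of `P`
  set Q : Polynomial k := P.map (constantCoeff (σ := Fin r)) with hQ
  have hQm : Q.Monic := hPm.map _
  have hroot : ∀ t : k, Q.eval (t * z i) = 0 := by
    intro t
    let e : MvPolynomial (Fin (n + 1)) k ⧸ I →+* k :=
      Ideal.Quotient.lift I (eval (fun i => t * z i)) (eval_smul_mem hI hz t)
    have he : e.comp (NN.phi I M).toRingHom = constantCoeff := by
      refine MvPolynomial.ringHom_ext (fun a => ?_) (fun j => ?_)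
      · have h0 : (e.comp (NN.phi I M).toRingHom) (C a) = eval (fun i => t * z i) (C a) := by
          change e (NN.phi I M (C a)) = _
          rw [NN.phi_apply]
          simp [e]
        rw [h0, eval_C, constantCoeff_C]
      · have h1 : (e.comp (NN.phi I M).toRingHom) (X j) = eval (fun i => t * z i) (M j) := by
          simp [e, NN.phi_apply]
        rw [h1, eval_smul_homog (hM j), hMz j, mul_zero, constantCoeff_X]
    have h2 : e (Polynomial.eval₂ (NN.phi I M).toRingHom (Ideal.Quotient.mk I (X i)) P) = 0 := by
      rw [hP, map_zero]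
    rw [Polynomial.hom_eval₂, he] at h2
    rw [hQ, Polynomial.eval_map]
    have h3 : e (Ideal.Quotient.mk I (X i)) = t * z i := by
      simp [e]
    rwa [h3] at h2
  have hfin : (Q.roots.toFinset : Set k).Finite := Finset.finite_toSet _
  have hall : ∀ s : k, s ∈ (Q.roots.toFinset : Set k) := by
    intro s
    rw [Finset.mem_coe, Multiset.mem_toFinset, Polynomial.mem_roots hQm.ne_zero]
    have h := hroot (s / z i)
    rwa [div_mul_cancel₀ _ hi] at h
  exact Set.infinite_univ (hfin.subset (fun s _ => hall s))

end Pool.Agent.CSM
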