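import Pool.Agent.CSM.Defs
import Pool.Agent.DC.DIMF
import Pool.Agent.DC.PRIME
import Pool.Agent.DC.Inst

/-!
# START: approximation of fixed precision (helper92)
-/

set_option autoImplicit false
set_option linter.unusedSectionVars false

noncomputable section

namespace Pool.Agent.CSM.START

open MvPolynomial Pool.Agent.LibDb3ab1 Pool.Agent.DC Pool.Agent.CSM

universe u

section hom

attribute [local instance] MvPolynomial.gradedAlgebra

/-- Ideals generated by homogeneous polynomials are homogeneous. -/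
theorem hi_span {k : Type u} [Field k] {n : ℕ} {J : Type} (G : J → MvPolynomial (Fin (n + 1)) k)
    (df : J → ℕ) (hG : ∀ j, (G j).IsHomogeneous (df j)) : HI (Ideal.span (Set.range G)) := by
  have h1 : (Ideal.span (Set.range G)).IsHomogeneous
      (MvPolynomial.homogeneousSubmodule (Fin (n + 1)) k) := by
    refine Ideal.homogeneous_span _ _ ?_
    rintro x ⟨j, rfl⟩
    exact ⟨df j, (mem_homogeneousSubmodule _ _).2 (hG j)⟩
  exact (PRIME.homog_iff _).1 h1

end hom

end Pool.Agent.CSM.START

namespace Pool.Agent.CSM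

open MvPolynomial Pool.Agent.LibDb3ab1 Pool.Agent.DC

universe u

theorem start_proof (hCoef : Stmt_Coef.{u}) (hRest : Stmt_Rest.{u})
    (hCong : Stmt_Cong.{u}) (hResd : Stmt_Resd.{u}) (hPrd : Stmt_Prd.{u}) : Stmt_Start.{u} := by
  intro p _ K _ _ O _ _ b n d J _ f df hdf hdim
  obtain ⟨red, hredsurj, hred, hunit⟩ := hRest p K O b
  have hp0O : (p : O) ≠ 0 := by
    intro h
    apply b.hp0
    have := congrArg O.subtype h
    rwa [map_natCast, map_zero] at this
  have hTF : IsAlgClosed (FractionRing (PreTilt O p)) := tilt_isAlgClosed O b.hu hp0O b.hϖ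
  obtain ⟨σ, hσ⟩ := hCoef p (PreTilt O p) (IsLocalRing.ResidueField O) red hredsurj hunit
  have hσ' : ∀ x, IsLocalRing.residue O (PreTilt.untilt (σ x)) = x := fun x => by
    rw [← hred, hσ]
  obtain ⟨ν, hν, hcong⟩ := hCong p K O b σ hσ' n J f
  have hdim' := hResd K O n d J f df hdf hdim.ge
  set ι : IsLocalRing.ResidueField O →+* FractionRing (PreTilt O p) :=
    (algebraMap (PreTilt O p) (FractionRing (PreTilt O p))).comp σ with hι
  set G : J → MvPolynomial (Fin (n + 1)) (FractionRing (PreTilt O p)) := fun j =>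
    MvPolynomial.map ι (MvPolynomial.map (IsLocalRing.residue O) (f j)) with hG
  have hspan : Ideal.span (Set.range G) = (Ideal.span (Set.range fun j =>
      MvPolynomial.map (IsLocalRing.residue O) (f j))).map (MvPolynomial.map ι) := by
    rw [Ideal.map_span, ← Set.range_comp]
    rfl
  have hGhom : ∀ j, (G j).IsHomogeneous (df j) := fun j => ((hdf j).map _).map _
  have hHI := START.hi_span G df hGhom
  have hdimG : ((d + 1 : ℕ) : WithBot ℕ∞) ≤ ringKrullDim
      (MvPolynomial (Fin (n + 1)) (FractionRing (PreTilt O p)) ⧸ Ideal.span (Set.range G)) := by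
    rw [hspan, dimf_proof (IsLocalRing.ResidueField O) (FractionRing (PreTilt O p)) ι (n + 1)]
    exact hdim'
  obtain ⟨𝔓, hle, hprime, hHI', hdimP⟩ :=
    hPrd (FractionRing (PreTilt O p)) n d (Ideal.span (Set.range G)) hHI hdimG
  refine ⟨ν, hν, 𝔓, hprime, hHI', hdimP, ?_⟩
  intro C _ ιC V hV _ _ y hy j
  apply hcong C ιC V hV y j
  have h1 : MvPolynomial.map (algebraMap (PreTilt O p) (FractionRing (PreTilt O p)))
      (MvPolynomial.map σ (MvPolynomial.map (IsLocalRing.residue O) (f j))) ∈ 𝔓 := by
    rw [MvPolynomial.map_map]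
    exact hle (Ideal.subset_span ⟨j, rfl⟩)
  have h2 := hy _ h1
  rw [MvPolynomial.eval₂_map] at h2
  exact h2

end Pool.Agent.CSM
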