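import Pool.Agent.CSM.FROBM
import Pool.Agent.CSM.IMAGE
import Pool.Agent.CSM.RAC
import Pool.Agent.CSM.NNG
import Pool.Agent.CSM.SECT
import Pool.Agent.CSM.DIMB
import Pool.Agent.CSM.RESD
import Pool.Agent.CSM.PRD
import Pool.Agent.CSM.COEF
import Pool.Agent.CSM.REST
import Pool.Agent.CSM.CONG
import Pool.Agent.CSM.START
import Pool.Agent.CSM.CONTR
import Pool.Agent.CSM.CERT
import Pool.Agent.CSM.NOZ
import Pool.Agent.CSM.FROB

/-!
# The theorems on contracting self-maps
-/

set_option autoImplicit false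
set_option linter.unusedSectionVars false

noncomputable section

namespace Pool.Agent.CSM

open MvPolynomial Pool.Agent.LibDb3ab1 Pool.Agent.DC

universe u

theorem start_all : Stmt_Start.{u} :=
  start_proof coef_proof rest_proof cong_proof (resd_proof rac_proof (sect_proof nng_proof)
    dimb_proof) (prd_proof nng_proof)

variable {p : ℕ} [Fact p.Prime] {K : Type u} [Field K] [CharZero K]
  {O : ValuationSubring K} [Fact ¬IsUnit (p : O)] [IsAdicComplete (Ideal.span {(p : O)}) O]

/-- Contracting self-maps. -/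
theorem contracting (b : TB O p) {n d q : ℕ} (hq : 0 < q) {J : Type} [Finite J]
    (f : J → MvPolynomial (Fin (n + 1)) O) (df : J → ℕ) (hf : ∀ j, (f j).IsHomogeneous (df j))
    (φ : Fin (n + 1) → MvPolynomial (Fin (n + 1)) O) (hφ : ∀ i, (φ i).IsHomogeneous q)
    (μ : O) (hμ : ¬IsUnit μ)
    (H1 : ∀ j, bind₁ φ (f j) ∈ Ideal.span {C μ} * Ideal.span (Set.range f) ⊔
      Ideal.span (Set.range f) ^ 2)
    (H2 : ∀ z : Fin (n + 1) → AlgebraicClosure (IsLocalRing.ResidueField O),
      (∀ j, aeval z (MvPolynomial.map (IsLocalRing.residue O) (f j)) = 0) →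
      (∀ i, aeval z (MvPolynomial.map (IsLocalRing.residue O) (φ i)) = 0) → z = 0)
    (hdim : ringKrullDim (MvPolynomial (Fin (n + 1)) K ⧸
      Ideal.span (Set.range fun j => MvPolynomial.map O.subtype (f j))) = (d + 1 : ℕ)) :
    TiltApprox p O (Ideal.span (Set.range fun j => MvPolynomial.map O.subtype (f j))) :=
  main_K start_all contr_proof noz_proof image_proof cert_proof b hq f df hf φ hφ μ hμ H1 H2 hdim

/-- Self-maps whose reduction factors through the Frobenius map. -/
theorem frobenius_factor (b : TB O p) {n d q : ℕ} (hq : 0 < q) {J : Type} [Finite J]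
    (f : J → MvPolynomial (Fin (n + 1)) O) (df : J → ℕ) (hf : ∀ j, (f j).IsHomogeneous (df j))
    (φ : Fin (n + 1) → MvPolynomial (Fin (n + 1)) O) (hφ : ∀ i, (φ i).IsHomogeneous q)
    (hflat : ∀ (a : O) (F : MvPolynomial (Fin (n + 1)) O), a ≠ 0 →
      C a * F ∈ Ideal.span (Set.range f) → F ∈ Ideal.span (Set.range f))
    (hred : (Ideal.span (Set.range fun j =>
      MvPolynomial.map (IsLocalRing.residue O) (f j))).IsRadical)
    (hself : ∀ j, bind₁ φ (f j) ∈ Ideal.span (Set.range f))
    (hbase : ∀ z : Fin (n + 1) → AlgebraicClosure (IsLocalRing.ResidueField O),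
      (∀ j, aeval z (MvPolynomial.map (IsLocalRing.residue O) (f j)) = 0) →
      (∀ i, aeval z (MvPolynomial.map (IsLocalRing.residue O) (φ i)) = 0) → z = 0)
    (hfact : ∀ i, ∃ ψ : MvPolynomial (Fin (n + 1)) (IsLocalRing.ResidueField O),
      MvPolynomial.map (IsLocalRing.residue O) (φ i) - expand p ψ ∈
        Ideal.span (Set.range fun j => MvPolynomial.map (IsLocalRing.residue O) (f j)))
    (hdim : ringKrullDim (MvPolynomial (Fin (n + 1)) K ⧸
      Ideal.span (Set.range fun j => MvPolynomial.map O.subtype (f j))) = (d + 1 : ℕ)) :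
    TiltApprox p O (Ideal.span (Set.range fun j => MvPolynomial.map O.subtype (f j))) :=
  main_F start_all contr_proof noz_proof image_proof cert_proof frob_proof b hq f df hf φ hφ
    hflat hred hself hbase hfact hdim

end Pool.Agent.CSM
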