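import Pool.Agent.CSM.Defs
import Pool.Agent.DC.MainF
import Pool.Agent.DC.FinalG

/-!
# Contracting self-maps: the assembly
-/

set_option autoImplicit false
set_option linter.unusedSectionVars false
set_option linter.style.haveILetI false

noncomputable section

namespace Pool.Agent.CSM.MAIN

open MvPolynomial Pool.Agent.LibDb3ab1 Pool.Agent.DC

universe u

theorem eval₂_smul_hom {R L : Type*} [CommRing R] [CommRing L] {n d : ℕ}
    {F : MvPolynomial (Fin (n + 1)) R} (hF : F.IsHomogeneous d) (ι : R →+* L) (c : L)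
    (x : Fin (n + 1) → L) : eval₂ ι (fun l => c * x l) F = c ^ d * eval₂ ι x F := by
  have h1 : MH (fun (_ : Fin 1) (_ : Fin (n + 1)) => 1) F (fun _ => d) := fun _ => hF
  have h2 := eval₂_act h1 ι (fun _ => c) x
  have h3 : act (fun (_ : Fin 1) (_ : Fin (n + 1)) => 1) (fun _ => c) x = fun l => c * x l := by
    funext l
    simp [act, chr]
  rw [h3] at h2
  rw [h2]
  simp [chr]

theorem dvd_eval_sub {R L : Type*} [CommRing R] [CommRing L] {n : ℕ}
    (F : MvPolynomial (Fin (n + 1)) R) (ι : R →+* L) (a : L) (x y : Fin (n + 1) → L)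
    (h : ∀ l, a ∣ x l - y l) : a ∣ eval₂ ι x F - eval₂ ι y F := by
  rw [← Ideal.mem_span_singleton, ← Ideal.Quotient.eq, hom_eval₂, hom_eval₂]
  congr 1
  funext l
  exact Ideal.Quotient.eq.mpr (Ideal.mem_span_singleton.mpr (h l))

end Pool.Agent.CSM.MAIN

namespace Pool.Agent.CSM

open MvPolynomial Pool.Agent.LibDb3ab1 Pool.Agent.DC MAIN

universe u

/-- The theorem over algebraically closed perfectoid fields. -/
theorem main_C (hStart : Stmt_Start.{u}) (hContr : Stmt_Contr.{u}) (hNoz : Stmt_Noz.{u})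
    (hImage : Stmt_Image.{u}) {p : ℕ} [Fact p.Prime] {K : Type u} [Field K] [IsAlgClosed K]
    {O : ValuationSubring K} [Fact ¬IsUnit (p : O)] [IsAdicComplete (Ideal.span {(p : O)}) O]
    (b : TB O p) {n d q : ℕ} (hq : 0 < q) {J : Type} [Finite J]
    (f : J → MvPolynomial (Fin (n + 1)) O) (df : J → ℕ) (hf : ∀ j, (f j).IsHomogeneous (df j))
    (φ : Fin (n + 1) → MvPolynomial (Fin (n + 1)) O) (hφ : ∀ i, (φ i).IsHomogeneous q)
    (μ : O) (hμ : ¬IsUnit μ)
    (H1 : ∀ j, bind₁ φ (f j) ∈ Ideal.span {C μ} * Ideal.span (Set.range f) ⊔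
      Ideal.span (Set.range f) ^ 2) (s : ℕ)
    (H2 : ∀ i, X i ^ s ∈ Ideal.span (Set.range f) ⊔ Ideal.span (Set.range φ) ⊔
      Ideal.map C (IsLocalRing.maximalIdeal O))
    (hdim : ringKrullDim (MvPolynomial (Fin (n + 1)) K ⧸
      Ideal.span (Set.range fun j => MvPolynomial.map O.subtype (f j))) = (d + 1 : ℕ)) :
    TiltApprox p O (Ideal.span (Set.range fun j => MvPolynomial.map O.subtype (f j))) := by
  intro U hU hIU
  rw [hdim]
  have hp0 := b.hp0
  have hpu : ¬IsUnit (p : O) := Fact.out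
  obtain ⟨ν, hν, P0, hP1, hP2, hP3, hP4⟩ := hStart p K O b n d J f df hf hdim
  -- the contraction factor
  obtain ⟨η, hη, hημ, hην⟩ : ∃ η : O, ¬IsUnit η ∧ η ∣ μ ∧ η ∣ ν := by
    rcases dvd_total' O μ ν with h | h
    · exact ⟨μ, hμ, dvd_rfl, h⟩
    · exact ⟨ν, hν, h, dvd_rfl⟩
  -- compactness
  obtain ⟨M, hM⟩ := compact_tube hp0 hpu exists_dvd_pow (fun _ : Fin (n + 1) => (0 : Fin 1)) f X U
    hU (by
      intro L _ ι V hV z v _ hz hFz
      have hz0 : (fun l => ((z l : V) : L)) ≠ 0 := by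
        intro h
        have h1 := congrFun h (v 0)
        rw [hz 0] at h1
        exact one_ne_zero h1
      let a : AdicProj O n := ⟨pointRel ι V (fun l => ((z l : V) : L)),
        ⟨L, inferInstance, ι, V, fun l => ((z l : V) : L), hV, hz0, rfl⟩⟩
      refine ⟨a, hIU ?_, ?_⟩
      · intro F hF k hk
        refine ⟨k, hk, isHomogeneous_zero _ _ _, ?_⟩
        have h1 : Ideal.span (Set.range fun j => MvPolynomial.map O.subtype (f j)) ≤
            RingHom.ker (eval₂Hom ι (fun l => ((z l : V) : L))) := by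
          rw [Ideal.span_le]
          rintro _ ⟨j, rfl⟩
          change eval₂ ι (fun l => ((z l : V) : L)) (MvPolynomial.map O.subtype (f j)) = 0
          rw [eval₂_map]
          have h2 := hom_eval₂ (f j) hV.incl V.subtype z
          rw [hFz j, map_zero] at h2
          exact h2.symm
        have h3 : eval₂ ι (fun l => ((z l : V) : L)) F = 0 := h1 hF
        change V.valuation (eval₂ ι (fun l => ((z l : V) : L)) F) ≤ V.valuation _
        rw [h3, map_zero]
        exact zero_le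
      · change pointRel ι V _ = pointRel ι V _
        congr 1
        funext l
        rw [eval₂_X])
  -- the number of iterations
  obtain ⟨m, hm⟩ : ∃ m : ℕ, (p : O) ^ (M + 1) ∣ η ^ m := by
    obtain ⟨k, hk⟩ := b.hr η hη
    exact ⟨k * (M + 1), by rw [pow_mul]; exact pow_dvd_pow_of_dvd hk _⟩
  -- the orbit of a point
  have horb : ∀ (C' : Type u) [Field C'] (ι : K →+* C') (V : ValuationSubring C')
      (hV : ValuedExt O ι V) [Fact ¬IsUnit (p : V)] [IsAdicComplete (Ideal.span {(p : V)}) V]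
      (z : Fin (n + 1) → PreTilt V p), TPt P0 hV z → ∀ (k : ℕ) (j : J),
      hV.incl (η ^ k * ν) ∣ eval₂ hV.incl (fun i => eval₂ hV.incl
        (fun i => PreTilt.untilt (z i)) (iter φ k i)) (f j) := by
    intro C' _ ι V hV _ _ z hz k j
    exact ((hContr O n φ).2 V hV.incl (fun i => PreTilt.untilt (z i))).2 J f μ ν η hημ hην H1
      (hP4 C' ι V hV z hz) k j
  have hunit : ∀ (C' : Type u) [Field C'] (ι : K →+* C') (V : ValuationSubring C')
      (hV : ValuedExt O ι V) [Fact ¬IsUnit (p : V)] [IsAdicComplete (Ideal.span {(p : V)}) V]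
      (z : Fin (n + 1) → PreTilt V p), (∃ v, z v = 1) → TPt P0 hV z → ∀ k : ℕ,
      ∃ l, IsUnit (eval₂ hV.incl (fun i => PreTilt.untilt (z i)) (iter φ k l)) := by
    intro C' _ ι V hV _ _ z ⟨v, hv⟩ hz k
    induction k with
    | zero =>
      refine ⟨v, ?_⟩
      change IsUnit (eval₂ hV.incl (fun i => PreTilt.untilt (z i)) (X v))
      rw [eval₂_X, hv, map_one]
      exact isUnit_one
    | succ k ih =>
      have h1 := congrFun (((hContr O n φ).2 V hV.incl (fun i => PreTilt.untilt (z i))).1 k)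
      obtain ⟨l, hl⟩ := hNoz O V hV.incl (fun a ha => hV.not_isUnit ha) n J f φ s H2
        (fun i => eval₂ hV.incl (fun i => PreTilt.untilt (z i)) (iter φ k i)) ih
        (fun j hj => hV.not_isUnit (x := η ^ k * ν) (fun h => hν (isUnit_of_mul_isUnit_right h))
          (isUnit_of_dvd_unit (horb C' ι V hV z hz k j) hj))
      exact ⟨l, by rw [h1 l]; exact hl⟩
  obtain ⟨𝔔, h𝔔1, h𝔔2, h𝔔3, h𝔔4⟩ := hImage p K O b n n d P0 hP1 hP2 hP3 (MAINFX.le_of_dim hdim)
    (q ^ m) (pow_pos hq m) (iter φ m) ((hContr O n φ).1 q hφ m)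
    (fun C' _ _ ι V hV _ _ z hv hz => hunit C' ι V hV z hv hz m) (M + 1)
  refine ⟨𝔔, h𝔔1, h𝔔2, h𝔔3, ?_⟩
  intro C' _ _ ι V hV _ _ y hy hyP
  obtain ⟨z, v, x', c, hc, hzv, hPz, hx', hxy⟩ := h𝔔4 C' ι V hV y hy hyP
  set w : Fin (n + 1) → V := fun i => eval₂ hV.incl (fun i => PreTilt.untilt (z i)) (iter φ m i)
    with hw
  obtain ⟨l₀, hl₀⟩ := hunit C' ι V hV z ⟨v, hzv⟩ hPz m
  have hfw : ∀ j, (p : V) ^ (M + 1) ∣ eval₂ hV.incl w (f j) := by
    intro j
    refine dvd_trans ?_ (horb C' ι V hV z hPz m j)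
    rw [map_mul]
    have h1 : (p : V) ^ (M + 1) ∣ hV.incl (η ^ m) := by
      have h2 := map_dvd hV.incl hm
      rw [map_pow, map_natCast] at h2
      exact h2
    exact h1.mul_right _
  have hfx : ∀ j, (p : V) ^ (M + 1) ∣ eval₂ hV.incl x' (f j) := by
    intro j
    have h1 := dvd_eval_sub (f j) hV.incl ((p : V) ^ (M + 1)) x' w hx'
    have h2 := dvd_add h1 (hfw j)
    rwa [sub_add_cancel] at h2
  have hx'u : IsUnit (x' l₀) := by
    by_contra hcon
    have h1 : (p : V) ∣ x' l₀ - w l₀ := (dvd_pow_self _ (Nat.succ_ne_zero M)).trans (hx' l₀)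
    have h2 : ¬IsUnit (x' l₀ - w l₀) := fun h =>
      (Fact.out : ¬IsUnit (p : V)) (isUnit_of_dvd_unit h1 h)
    have h3 : x' l₀ - (x' l₀ - w l₀) = w l₀ := by ring
    have h4 : w l₀ ∈ IsLocalRing.maximalIdeal V := by
      rw [← h3]
      exact Ideal.sub_mem _ ((IsLocalRing.mem_maximalIdeal _).mpr hcon)
        ((IsLocalRing.mem_maximalIdeal _).mpr h2)
    exact (IsLocalRing.mem_maximalIdeal _).mp h4 hl₀
  obtain ⟨t, ht⟩ := hx'u.exists_right_inv
  have ht' : t * x' l₀ = 1 := by rw [mul_comm]; exact ht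
  have htu : IsUnit t := IsUnit.of_mul_eq_one _ ht'
  have ht0 : (t : C') ≠ 0 := by
    intro h0
    have h1 : t = 0 := Subtype.ext h0
    rw [h1, zero_mul] at ht'
    exact zero_ne_one ht'
  obtain ⟨a, haU, ha⟩ := hM C' ι V hV (fun l => t * x' l) (fun l => t * x' l) (fun _ => l₀)
    (fun i => Subsingleton.elim _ _) (fun _ => ht')
    (fun j => by
      rw [eval₂_smul_hom (hf j)]
      exact ((pow_dvd_pow _ (Nat.le_succ M)).trans (hfx j)).mul_left _)
    (fun l => by rw [eval₂_X, sub_self]; exact dvd_zero _)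
    (fun h => by
      have h1 := congrFun h l₀
      simp only [Pi.zero_apply] at h1
      rw [ht'] at h1
      exact one_ne_zero h1)
  refine ⟨a, haU, ?_⟩
  rw [ha, ← pointRel_smul ι V (fun l => ((PreTilt.untilt (y l) : V) : C')) ((t : C') * c)
    (mul_ne_zero ht0 hc)]
  congr 1
  funext l
  change ((t : V) : C') * (x' l : C') = _
  rw [hxy l, mul_assoc]

/-- The theorem over perfectoid fields of characteristic zero. -/
theorem main_K (hStart : Stmt_Start.{u}) (hContr : Stmt_Contr.{u}) (hNoz : Stmt_Noz.{u})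
    (hImage : Stmt_Image.{u}) (hCert : Stmt_Cert.{u}) {p : ℕ} [Fact p.Prime] {K : Type u} [Field K]
    [CharZero K]
    {O : ValuationSubring K} [Fact ¬IsUnit (p : O)] [IsAdicComplete (Ideal.span {(p : O)}) O]
    (b : TB O p) {n d q : ℕ} (hq : 0 < q) {J : Type} [Finite J]
    (f : J → MvPolynomial (Fin (n + 1)) O) (df : J → ℕ) (hf : ∀ j, (f j).IsHomogeneous (df j))
    (φ : Fin (n + 1) → MvPolynomial (Fin (n + 1)) O) (hφ : ∀ i, (φ i).IsHomogeneous q)
    (μ : O) (hμ : ¬IsUnit μ)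
    (H1 : ∀ j, bind₁ φ (f j) ∈ Ideal.span {C μ} * Ideal.span (Set.range f) ⊔
      Ideal.span (Set.range f) ^ 2)
    (H2 : ∀ z : Fin (n + 1) → AlgebraicClosure (IsLocalRing.ResidueField O),
      (∀ j, aeval z (MvPolynomial.map (IsLocalRing.residue O) (f j)) = 0) →
      (∀ i, aeval z (MvPolynomial.map (IsLocalRing.residue O) (φ i)) = 0) → z = 0)
    (hdim : ringKrullDim (MvPolynomial (Fin (n + 1)) K ⧸
      Ideal.span (Set.range fun j => MvPolynomial.map O.subtype (f j))) = (d + 1 : ℕ)) :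
    TiltApprox p O (Ideal.span (Set.range fun j => MvPolynomial.map O.subtype (f j))) := by
  obtain ⟨s, H2'⟩ := hCert K O n J f φ H2
  refine descent b (d := d) _ hdim ?_
  intro C₁ _ _ _ ι₁ O₁ h₁ _ _ b₁
  have hspan : (Ideal.span (Set.range fun j => MvPolynomial.map O.subtype (f j))).map
      (MvPolynomial.map ι₁) =
      Ideal.span (Set.range fun j =>
        MvPolynomial.map O₁.subtype (MvPolynomial.map h₁.incl (f j))) := by
    rw [Ideal.map_span, ← Set.range_comp]
    congr 2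
    funext j
    change MvPolynomial.map ι₁ (MvPolynomial.map O.subtype (f j)) = _
    rw [MvPolynomial.map_map, MvPolynomial.map_map]
    rfl
  have hrange : ∀ {T : Type} (g : T → MvPolynomial (Fin (n + 1)) O),
      (Ideal.span (Set.range g)).map (MvPolynomial.map h₁.incl) =
      Ideal.span (Set.range fun j => MvPolynomial.map h₁.incl (g j)) := by
    intro T g
    rw [Ideal.map_span, ← Set.range_comp]
    rfl
  rw [hspan]
  refine main_C hStart hContr hNoz hImage b₁ (d := d) hq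
    (fun j => MvPolynomial.map h₁.incl (f j)) df
    (fun j => (hf j).map _) (fun i => MvPolynomial.map h₁.incl (φ i)) (fun i => (hφ i).map _)
    (h₁.incl μ) (h₁.not_isUnit hμ) ?_ s ?_ ?_
  · intro j
    have h1 := Ideal.mem_map_of_mem (MvPolynomial.map h₁.incl) (H1 j)
    rw [Ideal.map_sup, Ideal.map_mul, Ideal.map_pow, hrange f, Ideal.map_span,
      Set.image_singleton, map_C, map_bind₁] at h1
    exact h1
  · intro i
    have h1 := Ideal.mem_map_of_mem (MvPolynomial.map h₁.incl) (H2' i)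
    rw [Ideal.map_sup, Ideal.map_sup, hrange f, hrange φ, map_pow, map_X] at h1
    have h2 : Ideal.map (MvPolynomial.map h₁.incl)
        (Ideal.map (C : O →+* MvPolynomial (Fin (n + 1)) O) (IsLocalRing.maximalIdeal O)) ≤
        Ideal.map C (IsLocalRing.maximalIdeal O₁) := by
      rw [Ideal.map_le_iff_le_comap, Ideal.map_le_iff_le_comap]
      intro a ha
      rw [Ideal.mem_comap, Ideal.mem_comap, map_C]
      apply Ideal.mem_map_of_mem
      exact (IsLocalRing.mem_maximalIdeal _).mpr (h₁.not_isUnit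
        ((IsLocalRing.mem_maximalIdeal _).mp ha))
    exact SetLike.le_def.mp (sup_le_sup le_rfl h2) h1
  · rw [← hspan]
    exact (dimf_proof K C₁ ι₁ (n + 1) _).trans hdim

end Pool.Agent.CSM
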